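import Mathlib

namespace Pool.Agent.P.MP_775916_co

/-- An edge-ordered graph: a simple graph with a labelling that is injective on the edges. -/
structure EOGraph (V : Type) where
  graph : SimpleGraph V
  label : Sym2 V → ℝ
  inj : Set.InjOn label graph.edgeSet

/-- `φ` is a copy of `G` in `H`: injective, maps edges to edges, and preserves the edge order. -/
def IsCopy {W V : Type} (G : EOGraph W) (H : EOGraph V) (φ : W → V) : Prop :=
  Function.Injective φ ∧ (∀ x y, G.graph.Adj x y → H.graph.Adj (φ x) (φ y)) ∧
    ∀ e ∈ G.graph.edgeSet, ∀ f ∈ G.graph.edgeSet,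
      (G.label e < G.label f ↔ H.label (e.map φ) < H.label (f.map φ))

/-- The real number `t` is not the label of an edge of `H`. -/
def Fresh {V : Type} (H : EOGraph V) (t : ℝ) : Prop :=
  ∀ e ∈ H.graph.edgeSet, H.label e ≠ t

open Classical in
/-- `H` with the edge `uv` added, carrying the new label `t`. -/
noncomputable def addEdge {V : Type} (H : EOGraph V) (u v : V) (t : ℝ) (ht : Fresh H t) :
    EOGraph V where
  graph := H.graph ⊔ SimpleGraph.edge u v
  label := fun e => if e = s(u, v) then t else H.label e
  inj := by
    intro e he f hf h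
    have key : ∀ g ∈ (H.graph ⊔ SimpleGraph.edge u v).edgeSet, g ≠ s(u, v) →
        g ∈ H.graph.edgeSet := by
      intro g hg hne
      rw [SimpleGraph.edgeSet_sup] at hg
      rcases hg with hg | hg
      · exact hg
      · exact absurd (SimpleGraph.edgeSet_edge_subset hg) hne
    by_cases h1 : e = s(u, v) <;> by_cases h2 : f = s(u, v)
    · rw [h1, h2]
    · simp only [h1, h2, if_true, if_false] at h
      exact absurd h.symm (ht f (key f hf h2))
    · simp only [h1, h2, if_true, if_false] at h
      exact absurd h (ht e (key e he h1))
    · simp only [h1, h2, if_false] at h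
      exact H.inj (key e he h1) (key f hf h2) h

/-- The three variants of the problem. -/
inductive Variant
  | e
  | m
  | s

/-- `P` holds for every position of a new label (`e`), for the position below all labels of `H`
(`m`), or for at least one position (`s`). -/
def AtPositions {V : Type} (x : Variant) (H : EOGraph V) (P : (t : ℝ) → Fresh H t → Prop) : Prop :=
  match x with
  | .e => ∀ t ht, P t ht
  | .m => ∀ t ht, (∀ e ∈ H.graph.edgeSet, t < H.label e) → P t ht
  | .s => ∃ t ht, P t ht

/-- `H` avoids `G`, and adding any non-edge (at the positions of variant `x`) creates a copy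
of `G`. -/
def IsSatHost {W V : Type} (x : Variant) (G : EOGraph W) (H : EOGraph V) : Prop :=
  (¬ ∃ φ, IsCopy G H φ) ∧
    ∀ u v, u ≠ v → ¬ H.graph.Adj u v →
      AtPositions x H fun t ht => ∃ φ, IsCopy G (addEdge H u v t ht) φ

/-- Adding any non-edge (at the positions of variant `x`) creates a new copy of `G`, that is, a
copy that uses the added edge. -/
def IsSemisatHost {W V : Type} (x : Variant) (G : EOGraph W) (H : EOGraph V) : Prop :=
  ∀ u v, u ≠ v → ¬ H.graph.Adj u v →
    AtPositions x H fun t ht => ∃ φ, IsCopy G (addEdge H u v t ht) φ ∧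
      ∃ e ∈ G.graph.edgeSet, e.map φ = s(u, v)

/-- The saturation function: least number of edges of an `n`-vertex saturation host. -/
noncomputable def sat {W : Type} (x : Variant) (G : EOGraph W) (n : ℕ) : ℕ :=
  sInf {m | ∃ H : EOGraph (Fin n), IsSatHost x G H ∧ H.graph.edgeSet.ncard = m}

/-- The semisaturation function: least number of edges of an `n`-vertex semisaturation host. -/
noncomputable def ssat {W : Type} (x : Variant) (G : EOGraph W) (n : ℕ) : ℕ :=
  sInf {m | ∃ H : EOGraph (Fin n), IsSemisatHost x G H ∧ H.graph.edgeSet.ncard = m}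

end Pool.Agent.P.MP_775916_co
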