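import Pool.Agent.P.MP_775916_co.Free

namespace Pool.Agent.P.MP_775916_co

variable {k T N : ℕ}

lemma CE.zone_sub_inj {c c' : CE k} (h : c.zone = c'.zone) (h' : c.sub = c'.sub) : c = c' := by
  cases c <;> cases c' <;> simp [CE.zone, CE.sub, Fin.ext_iff] at h h' ⊢ <;> omega

lemma CE.zone_cases (c : CE k) : c.zone = 1 ∨ c.zone = 3 ∨ 5 ≤ c.zone := by
  cases c <;> simp [CE.zone]

lemma zW_even (i j : ℕ) : zW i j % 2 = 0 := by
  unfold zW; split_ifs <;> omega

lemma zone_core {s : Bool} {c : CE k} {ε : GE k N} (h : ε.zone = (GE.core s c : GE k N).zone) :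
    ∃ c', ε = .core s c' ∧ c'.zone = c.zone := by
  have a := c.zone_le
  have b := c.zone_cases
  cases ε with
  | root σ => exfalso; cases s <;> cases σ <;> simp [GE.zone, sg] at h <;> omega
  | core σ c' =>
    have := c'.zone_pos
    cases s <;> cases σ <;> simp [GE.zone, sg] at h ⊢ <;> omega
  | gx σ c' => exfalso; cases s <;> cases σ <;> simp [GE.zone, sg] at h <;> omega
  | gs σ c' e j => exfalso; cases s <;> cases σ <;> simp [GE.zone, sg] at h <;> omega
  | w x =>
    exfalso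
    have := zW_bd x.1.1 x.1.2
    have := zW_even x.1.1 x.1.2
    cases s <;> simp [GE.zone, sg] at h <;> omega

lemma zone_root {s : Bool} {ε : GE k N} (h : ε ≠ .root s) : -(k + 12 : ℤ) < sg s * ε.zone := by
  cases ε with
  | root σ => cases s <;> cases σ <;> simp [GE.zone, sg] at h ⊢ <;> omega
  | core σ c' =>
    have := c'.zone_le
    cases s <;> cases σ <;> simp [GE.zone, sg] <;> omega
  | gx σ c' => cases s <;> cases σ <;> simp [GE.zone, sg] <;> omega
  | gs σ c' e j =>
    have := gr_le e j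
    cases s <;> cases σ <;> simp [GE.zone, sg] <;> omega
  | w x =>
    have := zW_bd x.1.1 x.1.2
    cases s <;> simp [GE.zone, sg] <;> omega

def emb (s : Bool) (χ : Core k → NV k T) : GV k N → HV k T N
  | .core σ c => if σ = s then .nv (χ c) else .fix s (.core σ c)
  | .gad σ c j => if σ = s then .x s c (χ c.src).cls (χ c.tgt).cls j else .fix s (.gad σ c j)
  | .w i => .fix s (.w i)

noncomputable def embL (s : Bool) (lam : CE k → Lab T) (ε : GE k N) : Lam T :=
  match ε with
  | .core σ c => if σ = s then toLam k (lam c) else std T s ε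
  | _ => std T s ε

lemma embed (s : Bool) (χ : Core k → NV k T) (hχ : Function.Injective χ) (lam : CE k → Lab T)
    (hNE : ∀ c, NE (χ c.src) (χ c.tgt) (lam c) ∨ NE (χ c.tgt) (χ c.src) (lam c))
    (hside : ∀ c, (lam c).1 = s) (hzone : ∀ c, (lam c).2.1 = c.zone)
    (hord : ∀ c c', c.zone = c'.zone → c.sub < c'.sub →
      toLex (lam c).2.2.1 < toLex (lam c').2.2.1 ∨
        ((lam c).2.2.1 = (lam c').2.2.1 ∧ (lam c).2.2.2 < (lam c').2.2.2))
    (u v : HV k T N) (huv : s(HV.nv (χ .a), HV.nv (χ .b)) = s(u, v))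
    (t : ℝ) (ht : Fresh (host k T N) t)
    (hts : ∀ x y l, HS x y l → 0 < sg s * l.zone →
      if s then t < (host k T N).label s(x, y) else (host k T N).label s(x, y) < t) :
    ∃ φ, IsCopy (pat k N) (addEdge (host k T N) u v t ht) φ := by
  have hinj : Function.Injective (emb s χ : GV k N → HV k T N) := by
    intro x y h
    cases x <;> cases y <;> simp only [emb] at h <;> (try split_ifs at h) <;>
      simp_all [hχ.eq_iff]
  have hcls : ∀ c : CE k, (χ c.src).cls ≠ (χ c.tgt).cls := fun c =>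
    (hNE c).elim NE.cls_ne (fun h => h.cls_ne.symm)
  have hHS : ∀ ε : GE k N, ε ≠ .root s →
      HS (emb s χ ε.src) (emb s χ ε.tgt) (embL s lam ε) := by
    intro ε hε
    by_cases hs : ε.side = some s
    · cases ε with
      | root σ => simp [GE.side] at hs hε; exact absurd hs hε
      | core σ c =>
        obtain rfl : σ = s := by simpa [GE.side] using hs
        simp only [emb, embL, GE.src, GE.tgt, if_true]
        exact (hNE c).imp (fun h => ⟨_, h, rfl⟩) (fun h => ⟨_, h, rfl⟩)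
      | gx σ c =>
        obtain rfl : σ = s := by simpa [GE.side] using hs
        simp only [emb, embL, GE.src, GE.tgt, if_true]
        exact Or.inl ⟨rfl, rfl, rfl, rfl, rfl, rfl, rfl⟩
      | gs σ c e j =>
        obtain rfl : σ = s := by simpa [GE.side] using hs
        simp only [emb, embL, GE.src, GE.tgt, if_true]
        exact Or.inl ⟨hcls c, e, by cases e <;> simp [CE.en], rfl⟩
      | w x => simp [GE.side] at hs
    · have e1 : emb s χ ε.src = .fix s ε.src := by
        cases ε <;> simp_all [emb, GE.src, GE.side]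
      have e2 : emb s χ ε.tgt = .fix s ε.tgt := by
        cases ε <;> simp_all [emb, GE.tgt, GE.side]
      have e3 : embL s lam ε = std T s ε := by
        cases ε <;> simp_all [embL, GE.side]
      rw [e1, e2, e3]
      exact Or.inl ⟨rfl, ε, rfl, rfl, hs, rfl⟩
  have hcore : ∀ c : CE k, embL s lam (.core s c : GE k N) = toLam k (lam c) := by
    intro c; simp [embL]
  have hstd : ∀ ε : GE k N, (∀ c, ε ≠ .core s c) → embL s lam ε = std T s ε := by
    intro ε h
    cases ε <;> simp_all [embL]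
  have hz : ∀ ε : GE k N, (embL s lam ε).zone = sg s * (k + 13) + ε.zone := by
    intro ε
    by_cases h : ∃ c, ε = .core s c
    · obtain ⟨c, rfl⟩ := h
      rw [hcore, toLam_zone, hside, hzone]
      simp only [GE.zone]; ring
    · push Not at h
      rw [hstd ε h, std_zone]
  have hlt : ∀ ε ε' : GE k N, ε.wt < ε'.wt → embL s lam ε < embL s lam ε' := by
    intro ε ε' h
    rcases GE.wt_lt.mp h with h1 | ⟨h1, h2⟩
    · apply Lam.lt_of_zone; rw [hz, hz]; omega
    · by_cases hc : ∃ c, ε = .core s c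
      · obtain ⟨c, rfl⟩ := hc
        obtain ⟨c', rfl, hc'⟩ := zone_core h1.symm
        rw [hcore, hcore, toLam, toLam, mkL_lt]
        refine Or.inr ⟨by rw [hside, hside, hzone, hzone, hc'], ?_⟩
        rcases h2 with h2 | ⟨h2, h3⟩
        · exact hord c c' hc'.symm h2
        · rw [CE.zone_sub_inj hc'.symm h2] at h3
          exact absurd h3 (lt_irrefl _)
      · push Not at hc
        have hc' : ∀ c, ε' ≠ .core s c := by
          rintro c rfl
          obtain ⟨c', rfl, -⟩ := zone_core h1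
          exact hc c' rfl
        rw [hstd ε hc, hstd ε' hc']
        exact std_lt h
  have hroot : (GE.root s : GE k N).ed.map (emb s χ) = s(u, v) := by
    rw [← huv]; simp [GE.ed, GE.src, GE.tgt, emb]
  have hne : ∀ ε : GE k N, ε ≠ .root s → ε.ed.map (emb s χ) ≠ s(u, v) := by
    intro ε hε h
    rw [← hroot] at h
    exact hε (GE.ed_inj (Sym2.map.injective hinj h))
  have hpos : ∀ ε : GE k N, ε ≠ .root s → 0 < sg s * (embL s lam ε).zone := by
    intro ε hε
    have := zone_root hε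
    rw [hz]
    cases s <;> simp [sg] at this ⊢ <;> omega
  refine ⟨emb s χ, isCopy_of_lt hinj ?_ ?_⟩
  · intro x y hxy
    obtain ⟨ε, hε⟩ := pat_adj.mp hxy
    rw [addEdge_adj]
    by_cases h : ε = .root s
    · subst h
      rw [hε] at hroot
      exact Or.inr ⟨hroot, hinj.ne hxy.ne⟩
    · left
      have := hHS ε h
      rcases Sym2.eq_iff.mp hε with ⟨rfl, rfl⟩ | ⟨rfl, rfl⟩
      · exact ⟨_, this⟩
      · exact ⟨_, this.symm⟩
  · intro e he f hf hef
    obtain ⟨ε, rfl⟩ := pat_mem.mp he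
    obtain ⟨ε', rfl⟩ := pat_mem.mp hf
    rw [pat_lt] at hef
    by_cases h : ε = .root s <;> by_cases h' : ε' = .root s
    · rw [h, h'] at hef; exact absurd hef (lt_irrefl _)
    · subst h
      rw [hroot, addEdge_label_self, addEdge_label_ne _ _ _ _ _ (hne _ h')]
      have a := hts _ _ _ (hHS ε' h') (hpos ε' h')
      have b := zone_root h'
      cases s
      · exfalso
        rcases GE.wt_lt.mp hef with c | ⟨c, -⟩ <;> simp [GE.zone, sg] at b c <;> omega
      · exact a
    · subst h'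
      rw [hroot, addEdge_label_self, addEdge_label_ne _ _ _ _ _ (hne _ h)]
      have a := hts _ _ _ (hHS ε h) (hpos ε h)
      have b := zone_root h
      cases s
      · exact a
      · exfalso
        rcases GE.wt_lt.mp hef with c | ⟨c, -⟩ <;> simp [GE.zone, sg] at b c <;> omega
    · rw [addEdge_label_ne _ _ _ _ _ (hne _ h), addEdge_label_ne _ _ _ _ _ (hne _ h')]
      exact host_lt (hHS ε h) (hHS ε' h') (hlt _ _ hef)

lemma exists_side (t : ℝ) : ∃ s : Bool, ∀ (x y : HV k T N) l, HS x y l → 0 < sg s * l.zone →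
    if s then t < (host k T N).label s(x, y) else (host k T N).label s(x, y) < t := by
  by_cases h : ∀ (x y : HV k T N) l, HS x y l → 0 < l.zone → t < (host k T N).label s(x, y)
  · exact ⟨true, by simpa [sg] using h⟩
  · push Not at h
    obtain ⟨x, y, l, h1, h2, h3⟩ := h
    refine ⟨false, fun x' y' l' h4 h5 => ?_⟩
    simp [sg] at h5 ⊢
    exact (host_lt h4 h1 (Lam.lt_of_zone (by omega))).trans_le h3

lemma bef_update {i : Fin (k + 1)} {c : Idx k T} {x : Fin (T + 1)} (hx : x < c i) {n : ℕ}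
    (hn : (i : ℕ) < n) : bef n (Function.update c i x) c :=
  ⟨i, hn, fun j hj => Function.update_of_ne hj.ne _ _, by simpa using hx⟩

lemma embed_types (s : Bool) (u u' : Fin 3 → Code k T) (τ : Fin 3) (c0 : Idx k T)
    (h0 : u τ c0 = false) (h1 : u' τ c0 = true)
    (hmin : ∀ c, bef (k + 1) c c0 → u τ c = u' τ c)
    (x y : HV k T N) (huv : s(HV.nv (.ty u), HV.nv (.ty u')) = s(x, y))
    (t : ℝ) (ht : Fresh (host k T N) t)
    (hts : ∀ x y l, HS x y l → 0 < sg s * l.zone →
      if s then t < (host k T N).label s(x, y) else (host k T N).label s(x, y) < t) :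
    ∃ φ, IsCopy (pat k N) (addEdge (host k T N) x y t ht) φ := by
  have hne : u ≠ u' := by rintro rfl; simp_all
  have hhub : ∀ i, hubOf (u' τ) i c0 = hubOf (u τ) i c0 := by
    intro i
    simp only [hubOf, Prod.mk.injEq, true_and]
    funext c
    simp only [trunc]
    split_ifs with h
    · obtain ⟨j, -, h⟩ := h
      exact (hmin c ⟨j, j.2, h⟩).symm
    · rfl
  let χ : Core k → NV k T
    | .a => .ty u
    | .b => .ty u'
    | .p => .hub ⟨s, 0, .inl (u 0), false, false⟩
    | .q => .hub ⟨s, 2, .inl (u' 2), false, false⟩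
    | .v i => .hub ⟨s, τ, .inr (hubOf (u τ) i c0), false, false⟩
  let lam : CE k → Lab T
    | .ap => (s, 1, fun _ => 0, 0)
    | .qb => (s, 1, fun _ => 0, 2)
    | .pq => (s, 3, fun _ => 0, 0)
    | .av i => (s, 5 + i, posF (u τ) (hubOf (u τ) i c0), 0)
    | .bv i => (s, 5 + i, posF (u' τ) (hubOf (u τ) i c0), 0)
    | .vv i => (s, 5 + i, cut (hubOf (u τ) i.castSucc c0) (hubOf (u τ) i.succ c0), 0)
  have hab : ∀ i, ∀ x < c0 i,
      posF (u τ) (hubOf (u τ) i c0) x = posF (u' τ) (hubOf (u τ) i c0) x := by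
    intro i x hx
    simp only [posF, hubOf, Function.update_idem]
    rw [hmin _ (bef_update hx i.2)]
  have ha0 : ∀ i, posF (u τ) (hubOf (u τ) i c0) (c0 i) = 0 := by
    intro i; simp [posF, hubOf, h0]
  have hb2 : ∀ i, posF (u' τ) (hubOf (u τ) i c0) (c0 i) = 2 := by
    intro i; simp [posF, hubOf, h1]
  have hsc : ∀ i : Fin k, i.castSucc ≠ i.succ := fun i => (Fin.castSucc_lt_succ).ne
  have hac : ∀ i : Fin k, ∀ x < c0 i.castSucc, posF (u τ) (hubOf (u τ) i.castSucc c0) x =
      cut (hubOf (u τ) i.castSucc c0) (hubOf (u τ) i.succ c0) x := by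
    intro i x hx
    simp only [posF, cut, hubOf, Function.update_idem, Function.update_of_ne (hsc i), hx, if_true,
      trunc, bef_update hx (show (i.castSucc : ℕ) < i.succ by simp)]
  have hc1 : ∀ i : Fin k,
      cut (hubOf (u τ) i.castSucc c0) (hubOf (u τ) i.succ c0) (c0 i.castSucc) = 1 := by
    intro i; simp [cut, hubOf, Function.update_of_ne (hsc i)]
  refine embed s χ ?_ lam ?_ ?_ ?_ ?_ x y huv t ht hts
  · intro a' b' h
    cases a' <;> cases b' <;> simp [χ, hubOf, hne, hne.symm] at h ⊢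
    exact h.1
  · intro c
    cases c with
    | ap => exact Or.inl ⟨⟨rfl, rfl⟩, rfl, Or.inl ⟨_, rfl, rfl⟩⟩
    | qb => exact Or.inr ⟨⟨rfl, rfl⟩, rfl, Or.inl ⟨_, rfl, rfl⟩⟩
    | pq =>
      refine Or.inl (Or.inr (Or.inl ⟨_, ⟨rfl, rfl⟩, rfl, Or.inr ?_, rfl⟩))
      cases s <;> simp [Hub.mate, Hub.base]
    | av i => exact Or.inl ⟨⟨rfl, rfl⟩, ⟨c0, rfl⟩, Or.inr ⟨_, rfl, rfl⟩⟩
    | bv i => exact Or.inl ⟨⟨rfl, rfl⟩, ⟨c0, hhub i⟩, Or.inr ⟨_, rfl, rfl⟩⟩
    | vv i =>
      exact Or.inl (Or.inr (Or.inr ⟨_, _, ⟨rfl, rfl⟩, ⟨rfl, rfl⟩, rfl, rfl, rfl, rfl,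
        by simp [hubOf], rfl⟩))
  · intro c; cases c <;> rfl
  · intro c; cases c <;> rfl
  · intro c c' hz hs
    cases c <;> cases c' <;> simp [CE.zone, CE.sub] at hz hs <;> try omega
    case ap.qb => right; simp [lam]
    case av.bv i j =>
      obtain rfl : i = j := Fin.ext hz
      exact Or.inl ⟨c0 i, hab i, by simp [lam, ha0, hb2]⟩
    case av.vv i j =>
      obtain rfl : i = j.castSucc := Fin.ext hz
      exact Or.inl ⟨c0 j.castSucc, hac j, by simp [lam, ha0, hc1]⟩
    case vv.bv i j =>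
      obtain rfl : j = i.castSucc := Fin.ext hz.symm
      exact Or.inl ⟨c0 i.castSucc, fun x hx => (hac i x hx).symm.trans (hab _ x hx),
        by simp [lam, hb2, hc1]⟩

lemma embed_types' (u u' : Fin 3 → Code k T) (hne : u ≠ u')
    (x y : HV k T N) (huv : s(HV.nv (.ty u), HV.nv (.ty u')) = s(x, y))
    (t : ℝ) (ht : Fresh (host k T N) t) :
    ∃ φ, IsCopy (pat k N) (addEdge (host k T N) x y t ht) φ := by
  obtain ⟨s, hts⟩ := exists_side (k := k) (T := T) (N := N) t
  obtain ⟨τ, hτ⟩ := Function.ne_iff.mp hne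
  obtain ⟨c1, hc1⟩ := Function.ne_iff.mp hτ
  obtain ⟨c0, hc0, hmin⟩ := Set.exists_min_image {c | u τ c ≠ u' τ c} toLex (Set.toFinite _)
    ⟨c1, hc1⟩
  have hmin' : ∀ c, bef (k + 1) c c0 → u τ c = u' τ c := by
    rintro c ⟨j, -, h⟩
    by_contra hcon
    exact absurd (hmin c hcon) (not_le.mpr ⟨j, h⟩)
  simp only [Set.mem_ofPred_eq] at hc0
  cases h : u τ c0
  · exact embed_types s u u' τ c0 h (by simpa [h] using hc0) hmin' x y huv t ht hts
  · exact embed_types s u' u τ c0 (by simpa [h] using hc0) h (fun c hc => (hmin' c hc).symm) x y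
      (Sym2.eq_swap.trans huv) t ht hts

lemma embed_hub (u : Fin 3 → Code k T) (g : Hub k T) (hn : ¬ (g.base ∧ adjC g.κ (u g.τ)))
    (x y : HV k T N) (huv : s(HV.nv (.ty u), HV.nv (.hub g)) = s(x, y))
    (t : ℝ) (ht : Fresh (host k T N) t) :
    ∃ φ, IsCopy (pat k N) (addEdge (host k T N) x y t ht) φ := by
  obtain ⟨s, hts⟩ := exists_side (k := k) (T := T) (N := N) t
  obtain ⟨τ, hτ⟩ : ∃ τ, enc g τ (u τ) := by
    by_cases hb : g.base
    · exact ⟨g.τ, Or.inl ⟨hb, rfl, fun h => hn ⟨hb, h⟩⟩⟩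
    · exact ⟨g.τ + 1, Or.inr ⟨hb, rfl⟩⟩
  let χ : Core k → NV k T
    | .a => .ty u
    | .b => .hub g
    | .p => .hub ⟨s, τ, .inl (u τ), false, false⟩
    | .q => .hub (g.mate s)
    | .v i => .z s i
  let lam : CE k → Lab T
    | .ap => (s, 1, fun _ => 0, τ)
    | .qb => (s, 1, fun _ => 0, 3)
    | .pq => (s, 3, fun _ => 0, 0)
    | .av i => (s, 5 + i, fun _ => 0, 0)
    | .bv i => (s, 5 + i, fun _ => 2, 0)
    | .vv i => (s, 5 + i, fun _ => 1, 0)
  have hpq : NE (χ .p) (χ .q) (lam .pq) :=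
    Or.inr (Or.inl ⟨_, ⟨rfl, rfl⟩, rfl, by rw [mate_mate]; exact hτ, rfl⟩)
  have n1 : (⟨s, τ, .inl (u τ), false, false⟩ : Hub k T) ≠ g.mate s := by
    intro h
    apply hpq.cls_ne
    simp only [χ, h]
  have n2 : g ≠ ⟨s, τ, .inl (u τ), false, false⟩ := by
    rintro rfl
    exact hn ⟨⟨rfl, rfl⟩, rfl⟩
  have n3 : g ≠ g.mate s := by
    obtain ⟨σ, τ, κ, bt, bf⟩ := g
    cases s <;> simp [Hub.mate]
  refine embed s χ ?_ lam ?_ ?_ ?_ ?_ x y huv t ht hts
  · intro a' b' h
    cases a' <;> cases b' <;> simp only [χ, NV.hub.injEq, NV.z.injEq, reduceCtorEq] at h <;>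
      first | rfl | exact absurd h n1 | exact absurd h n2 | exact absurd h n3 |
        exact absurd h.symm n1 | exact absurd h.symm n2 | exact absurd h.symm n3 | rw [h.2]
  · intro c
    cases c with
    | ap => exact Or.inl ⟨⟨rfl, rfl⟩, rfl, Or.inl ⟨_, rfl, rfl⟩⟩
    | qb =>
      cases h : g.get s
      · exact Or.inr (Or.inl ⟨s, h, rfl, rfl⟩)
      · refine Or.inl (Or.inl ⟨s, ?_, (mate_mate _ _).symm, rfl⟩)
        cases s <;> simp_all [Hub.get, Hub.mate]
    | pq => exact Or.inl hpq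
    | av i => exact Or.inl rfl
    | bv i => exact Or.inl rfl
    | vv i => exact Or.inl ⟨rfl, by simp, rfl⟩
  · intro c; cases c <;> rfl
  · intro c; cases c <;> rfl
  · intro c c' hz hs
    cases c <;> cases c' <;> simp [CE.zone, CE.sub] at hz hs <;> try omega
    case ap.qb => right; simp [lam]
    all_goals exact Or.inl (const_lt (by decide))

end Pool.Agent.P.MP_775916_co
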