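import Pool.Agent.P.MP_775916_co.Upper

namespace Pool.Agent.P.MP_775916_co

open Filter Asymptotics

lemma not_bigO {i j : ℕ} (hij : i < j) (f g : ℕ → ℕ) (K : ℕ)
    (hf : ∀ T, ∃ n, 2 ^ (T + 1) ^ (i + 1) ≤ n ∧ f n ≤ K * (T + 1) ^ i * n)
    (hg : ∀ T n, 1 ≤ T → 2 * (T ^ j + 1) ^ (j * T ^ (j + 1) + 4 * T ^ j + 1) < n →
      T ^ j * n < 4 * g n) :
    ¬ (fun n => (g n : ℝ)) =O[atTop] (fun n => (f n : ℝ)) := by
  intro h
  obtain ⟨C, hC⟩ := h.bound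
  obtain ⟨n0, hn0⟩ := eventually_atTop.mp hC
  obtain ⟨C', hC'⟩ := exists_nat_ge C
  obtain ⟨d, hj⟩ := Nat.exists_eq_add_of_lt hij
  obtain ⟨b, hb⟩ : ∃ b, b = 2 * i + 1 := ⟨_, rfl⟩
  obtain ⟨c, hc⟩ : ∃ c, c = (b * j + 1) * (j + 5) + 1 := ⟨_, rfl⟩
  obtain ⟨ρ, hρ⟩ : ∃ ρ, ρ = 2 * c + 1 + n0 + 4 * C' * K := ⟨_, rfl⟩
  obtain ⟨r, hr⟩ : ∃ r, r = 2 ^ ρ := ⟨_, rfl⟩
  have hρr : ρ < r := hr ▸ Nat.lt_two_pow_self
  have hr1 : 1 ≤ r := by omega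
  have hpos : 1 ≤ r ^ (2 * j + 1) := Nat.one_le_pow _ _ hr1
  obtain ⟨n, hn, hfn⟩ := hf (r ^ (2 * j + 1) - 1)
  rw [Nat.sub_add_cancel hpos] at hn hfn
  obtain ⟨T, hT⟩ : ∃ T, T = r ^ b := ⟨_, rfl⟩
  have hT1 : 1 ≤ T := hT ▸ Nat.one_le_pow _ _ hr1
  obtain ⟨Z, hZ⟩ : ∃ Z, Z = T ^ (j + 1) := ⟨_, rfl⟩
  have hZ1 : 1 ≤ Z := hZ ▸ Nat.one_le_pow _ _ hT1
  have hA : r * Z ≤ (r ^ (2 * j + 1)) ^ (i + 1) := by
    rw [hZ, hT, ← pow_mul, ← pow_mul, ← pow_succ']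
    refine Nat.pow_le_pow_right hr1 ?_
    rw [hb, hj]; nlinarith
  have hB : r * (r ^ (2 * j + 1)) ^ i ≤ T ^ j := by
    rw [hT, ← pow_mul, ← pow_mul, ← pow_succ']
    refine Nat.pow_le_pow_right hr1 ?_
    rw [hb, hj]; nlinarith
  have hTj : T ^ j ≤ Z := hZ ▸ Nat.pow_le_pow_right hT1 (by omega)
  have hE : j * Z + 4 * T ^ j + 1 ≤ (j + 5) * Z := by nlinarith
  have hT2 : T ^ j + 1 ≤ 2 ^ (ρ * b * j + 1) := by
    have : T ^ j = 2 ^ (ρ * b * j) := by rw [hT, hr, ← pow_mul, ← pow_mul, mul_assoc]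
    have h1 : 1 ≤ 2 ^ (ρ * b * j) := Nat.one_le_two_pow
    rw [this, pow_succ]; omega
  have hcρ : c * ρ < r := by
    have := sq_le_two_pow ρ
    have h2 : 2 * c < ρ := by omega
    rw [← hr] at this
    nlinarith
  have hρ1 : 1 ≤ ρ := by omega
  have hexp : 1 + (ρ * b * j + 1) * ((j + 5) * Z) < r * Z := by
    have h1 : (ρ * b * j + 1) * (j + 5) + 1 ≤ c * ρ := by
      have : ρ * b * j + 1 ≤ (b * j + 1) * ρ := by nlinarith
      calc (ρ * b * j + 1) * (j + 5) + 1 ≤ ((b * j + 1) * ρ) * (j + 5) + ρ := by gcongr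
        _ = c * ρ := by rw [hc]; ring
    calc 1 + (ρ * b * j + 1) * ((j + 5) * Z) ≤ Z + (ρ * b * j + 1) * ((j + 5) * Z) := by gcongr
      _ = ((ρ * b * j + 1) * (j + 5) + 1) * Z := by ring
      _ ≤ (c * ρ) * Z := Nat.mul_le_mul_right _ h1
      _ < r * Z := Nat.mul_lt_mul_of_pos_right hcρ hZ1
  have hlt : 2 * (T ^ j + 1) ^ (j * T ^ (j + 1) + 4 * T ^ j + 1) < n := by
    calc 2 * (T ^ j + 1) ^ (j * T ^ (j + 1) + 4 * T ^ j + 1)
        ≤ 2 * (2 ^ (ρ * b * j + 1)) ^ ((j + 5) * Z) := by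
          refine Nat.mul_le_mul_left _ ((Nat.pow_le_pow_left hT2 _).trans
            (Nat.pow_le_pow_right Nat.one_le_two_pow ?_))
          rw [← hZ]; exact hE
      _ = 2 ^ (1 + (ρ * b * j + 1) * ((j + 5) * Z)) := by rw [← pow_mul, pow_add, pow_one]
      _ < 2 ^ (r * Z) := Nat.pow_lt_pow_right (by norm_num) hexp
      _ ≤ 2 ^ (r ^ (2 * j + 1)) ^ (i + 1) := Nat.pow_le_pow_right (by norm_num) hA
      _ ≤ n := hn
  have hgn := hg T n hT1 hlt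
  have hnn : n0 ≤ n := by
    have h1 : r * Z < 2 ^ (r * Z) := Nat.lt_two_pow_self
    have h2 : 2 ^ (r * Z) ≤ n := (Nat.pow_le_pow_right (by norm_num) hA).trans hn
    have h3 : r ≤ r * Z := Nat.le_mul_of_pos_right _ hZ1
    omega
  have h1 := hn0 n hnn
  simp only [Real.norm_natCast] at h1
  have h2 : g n ≤ C' * f n := by
    have : (g n : ℝ) ≤ C' * f n := h1.trans (mul_le_mul_of_nonneg_right hC' (Nat.cast_nonneg _))
    exact_mod_cast this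
  obtain ⟨Y, hY⟩ : ∃ Y, Y = (r ^ (2 * j + 1)) ^ i := ⟨_, rfl⟩
  rw [← hY] at hfn hB
  have h3 : r * (Y * n) < 4 * C' * K * (Y * n) := by
    calc r * (Y * n) = r * Y * n := by ring
      _ ≤ T ^ j * n := Nat.mul_le_mul_right _ hB
      _ < 4 * g n := hgn
      _ ≤ 4 * (C' * (K * Y * n)) := Nat.mul_le_mul_left _ (h2.trans (Nat.mul_le_mul_left _ hfn))
      _ = _ := by ring
  have h4 := Nat.lt_of_mul_lt_mul_right h3
  omega

lemma infinite_classes (F : ℕ → ℕ → ℕ)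
    (hf : ∀ k, ∃ K, ∀ T, ∃ n, 2 ^ (T + 1) ^ (k + 1) ≤ n ∧ F k n ≤ K * (T + 1) ^ k * n)
    (hg : ∀ k, 1 ≤ k → ∀ T n, 1 ≤ T → 2 * (T ^ k + 1) ^ (k * T ^ (k + 1) + 4 * T ^ k + 1) < n →
      T ^ k * n < 4 * F k n) (S : Set (Set (ℕ → ℝ)))
    (hS : ∀ k, {g : ℕ → ℝ | g =Θ[atTop] fun n => (F k n : ℝ)} ∈ S) : S.Infinite := by
  refine Set.infinite_of_injective_forall_mem
    (f := fun k => {g : ℕ → ℝ | g =Θ[atTop] fun n => (F (k + 1) n : ℝ)}) ?_ (fun k => hS _)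
  have key : ∀ i j, i < j → {g : ℕ → ℝ | g =Θ[atTop] fun n => (F (i + 1) n : ℝ)} ≠
      {g : ℕ → ℝ | g =Θ[atTop] fun n => (F (j + 1) n : ℝ)} := by
    intro i j hij h
    obtain ⟨K, hK⟩ := hf (i + 1)
    have h1 : (fun n => (F (j + 1) n : ℝ)) ∈
        {g : ℕ → ℝ | g =Θ[atTop] fun n => (F (i + 1) n : ℝ)} := by
      rw [h]; exact isTheta_refl _ _
    exact not_bigO (by omega : i + 1 < j + 1) _ _ K hK (hg (j + 1) (by omega)) h1.1
  intro i j h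
  rcases lt_trichotomy i j with hij | hij | hij
  · exact absurd h (key i j hij)
  · exact hij
  · exact absurd h.symm (key j i hij)

variable {W V : Type}

lemma satHost_e [Finite V] {G : EOGraph W} {H : EOGraph V} (x : Variant) (h : IsSatHost .e G H) :
    IsSatHost x G H := ⟨h.1, fun u v h1 h2 => atPositions_e (h.2 u v h1 h2)⟩

lemma semisatHost_s [Finite V] {G : EOGraph W} {H : EOGraph V} {x : Variant}
    (h : IsSemisatHost x G H) : IsSemisatHost .s G H :=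
  fun u v h1 h2 => atPositions_s (h u v h1 h2)

theorem sat_infinite (x : Variant) (S : Set (Set (ℕ → ℝ)))
    (hS : ∀ k, {g : ℕ → ℝ | g =Θ[atTop] fun n => (sat x (GG k) n : ℝ)} ∈ S) : S.Infinite := by
  refine infinite_classes (fun k n => sat x (GG k) n) (fun k => ?_) (fun k hk T n hT hn => ?_) S hS
  · obtain ⟨K, hK⟩ := upper k
    refine ⟨K, fun T => ?_⟩
    obtain ⟨n, hn, H, hH, hc⟩ := hK T
    exact ⟨n, hn, le_trans (Nat.sInf_le (by exact ⟨H, satHost_e x hH, rfl⟩)) hc⟩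
  · obtain ⟨H0, hH0⟩ := exists_host k n
    obtain ⟨H, hH, hc⟩ := Nat.sInf_mem (s := {m | ∃ H : EOGraph (Fin n), IsSatHost x (GG k) H ∧
      H.graph.edgeSet.ncard = m}) ⟨_, H0, satHost_e x hH0, rfl⟩
    have := lower hk hT H (semisatHost_s (semisat_of_sat hH)) hn
    rwa [hc] at this

theorem ssat_infinite (x : Variant) (S : Set (Set (ℕ → ℝ)))
    (hS : ∀ k, {g : ℕ → ℝ | g =Θ[atTop] fun n => (ssat x (GG k) n : ℝ)} ∈ S) : S.Infinite := by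
  refine infinite_classes (fun k n => ssat x (GG k) n) (fun k => ?_) (fun k hk T n hT hn => ?_) S hS
  · obtain ⟨K, hK⟩ := upper k
    refine ⟨K, fun T => ?_⟩
    obtain ⟨n, hn, H, hH, hc⟩ := hK T
    exact ⟨n, hn, le_trans (Nat.sInf_le (by exact ⟨H, semisat_of_sat (satHost_e x hH), rfl⟩)) hc⟩
  · obtain ⟨H0, hH0⟩ := exists_host k n
    obtain ⟨H, hH, hc⟩ := Nat.sInf_mem (s := {m | ∃ H : EOGraph (Fin n),
      IsSemisatHost x (GG k) H ∧ H.graph.edgeSet.ncard = m})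
      ⟨_, H0, semisat_of_sat (satHost_e x hH0), rfl⟩
    have := lower hk hT H (semisatHost_s hH) hn
    rwa [hc] at this

end Pool.Agent.P.MP_775916_co
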