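import Pool.Agent.P.MP_775916_co.Host

namespace Pool.Agent.P.MP_775916_co

variable {k T N : ℕ}

inductive Color (k : ℕ)
  | n (c : Cls k)
  | x (σ : Bool) (c : CE k) (κ1 κ2 : Cls k) (j : Bool)
  | c (s σ : Bool) (c : Core k)
  | g (s σ : Bool) (c : CE k) (j : Bool)
  | m
  deriving DecidableEq, Fintype

def col : HV k T N → Color k
  | .nv x => .n x.cls
  | .x σ c κ1 κ2 j => .x σ c κ1 κ2 j
  | .fix s (.core σ c) => .c s σ c
  | .fix s (.gad σ c j) => .g s σ c j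
  | .fix _ (.w _) => .m

lemma HE.col_ne {x y : HV k T N} {l : Lam T} (h : HE x y l) (hx : col x ≠ .m) : col x ≠ col y := by
  cases x <;> cases y <;> simp only [HE] at h
  case nv.nv =>
    obtain ⟨a, h, rfl⟩ := h
    simpa [col] using h.cls_ne
  case nv.x => simp [col]
  case x.x => simp_all [col]
  case fix.fix =>
    obtain ⟨rfl, ε, rfl, rfl, -, rfl⟩ := h
    have := ε.src_ne_tgt
    cases ε <;> simp_all [col, GE.src, GE.tgt]

lemma HS.marker {y : HV k T N} {l : Lam T} {s : Bool} {i : Fin N} (h : HS (.fix s (.w i)) y l) :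
    ∃ j, y = .fix s (.w j) := by
  rcases h with h | h <;> cases y <;> simp only [HE] at h
  · obtain ⟨rfl, ε, h1, rfl, -, rfl⟩ := h
    cases ε <;> simp_all [GE.src, GE.tgt]
  · obtain ⟨rfl, ε, rfl, h1, -, rfl⟩ := h
    cases ε <;> simp_all [GE.src, GE.tgt]

lemma const_lt {a b : Fin 3} (h : a < b) :
    toLex (fun _ => a : Pos T) < toLex (fun _ => b : Pos T) :=
  ⟨0, fun j hj => absurd hj (by simp), h⟩

lemma std_lt {s : Bool} {ε ε' : GE k N} (h : ε.wt < ε'.wt) : std T s ε < std T s ε' := by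
  rw [GE.wt_lt] at h
  rw [std, std, mkL_lt]
  rcases h with h | ⟨h, h' | ⟨h', h''⟩⟩
  · left; omega
  · right; exact ⟨by rw [h], Or.inl (const_lt h')⟩
  · right; exact ⟨by rw [h], Or.inr ⟨by rw [h'], h''⟩⟩

lemma std_zone (s : Bool) (ε : GE k N) : (std T s ε).zone = sg s * (k + 13) + ε.zone := rfl

lemma toLam_zone (l : Lab T) : (toLam k l).zone = sg l.1 * (k + 13 + l.2.1) := rfl

lemma zW_bd (i j : ℕ) : -4 ≤ zW i j ∧ zW i j ≤ 4 := by
  unfold zW; split_ifs <;> omega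

lemma gr_le (e j : Bool) : gr e j ≤ 3 := by cases e <;> cases j <;> simp [gr]

lemma window {x y : HV k T N} {l : Lam T} (h : HE x y l) (s : Bool)
    (hx : ∀ i, x ≠ .fix s (.w i)) (h1 : k + 13 ≤ sg s * l.zone) (h2 : sg s * l.zone ≤ k + 17) :
    ∃ x' y' l', x = .nv x' ∧ y = .nv y' ∧ NE x' y' l' ∧ l'.1 = s ∧
      sg s * l.zone = k + 13 + l'.2.1 := by
  cases x <;> cases y <;> simp only [HE] at h
  case nv.nv x' y' =>
    obtain ⟨⟨σ, z, r⟩, h, rfl⟩ := h
    rw [toLam_zone] at h1 h2 ⊢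
    refine ⟨x', y', _, rfl, rfl, h, ?_⟩
    cases s <;> cases σ <;> simp [sg] at h1 h2 ⊢ <;> omega
  case nv.x σ c κ1 κ2 j =>
    obtain ⟨-, e, -, rfl⟩ := h
    rw [std_zone] at h1 h2
    cases s <;> cases σ <;> simp [sg, GE.zone] at h1 h2 <;> omega
  case x.x σ c κ1 κ2 j _ _ _ _ _ =>
    obtain ⟨-, -, -, -, -, -, rfl⟩ := h
    rw [std_zone] at h1 h2
    cases s <;> cases σ <;> simp [sg, GE.zone] at h1 h2 <;> omega
  case fix.fix s' _ _ _ =>
    obtain ⟨rfl, ε, rfl, rfl, h3, rfl⟩ := h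
    rw [std_zone] at h1 h2
    exfalso
    cases ε with
    | root σ =>
      cases s <;> cases s' <;> cases σ <;> simp [sg, GE.zone, GE.side] at h1 h2 h3 <;> omega
    | core σ c =>
      have := c.zone_le
      have := c.zone_pos
      cases s <;> cases s' <;> cases σ <;> simp [sg, GE.zone, GE.side] at h1 h2 h3 <;> omega
    | gx σ c =>
      cases s <;> cases s' <;> cases σ <;> simp [sg, GE.zone, GE.side] at h1 h2 h3 <;> omega
    | gs σ c e j =>
      have := gr_le e j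
      cases s <;> cases s' <;> cases σ <;> simp [sg, GE.zone, GE.side] at h1 h2 h3 <;> omega
    | w x =>
      have := zW_bd x.1.1 x.1.2
      have h4 : s' ≠ s := by rintro rfl; exact hx _ rfl
      cases s <;> cases s' <;> simp [sg, GE.zone] at h1 h2 h4 <;> omega

lemma mate_mate (g : Hub k T) (s : Bool) : (g.mate s).mate s = g := by
  cases s <;> simp [Hub.mate]

def U1 (s : Bool) (x : NV k T) (g : Hub k T) : Prop :=
  (∃ u β, x = .ty u ∧ g.base ∧ g.σ = s ∧ g.κ = .inl β ∧ u g.τ = β) ∨ x = .hub (g.mate s)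

lemma U1_of {x : NV k T} {g : Hub k T} {l : Lab T} (h : NE x (.hub g) l ∨ NE (.hub g) x l)
    (hz : l.2.1 ≤ 2) : U1 l.1 x g := by
  rcases h with h | h <;> cases x <;> simp only [NE] at h
  · obtain ⟨h0, h2, ⟨β, h1, rfl⟩ | ⟨f, h1, rfl⟩⟩ := h
    · rw [h1] at h2
      exact Or.inl ⟨_, β, rfl, h0, rfl, h1, h2⟩
    · simp at hz; omega
  · rcases h with ⟨s, h1, rfl, rfl⟩ | ⟨β, h1, h2, h3, rfl⟩ |
      ⟨f, f', h1, h2, h3, h4, h5, h6, h7, rfl⟩
    · exact Or.inr (by rw [mate_mate])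
    · simp at hz
    · simp at hz; omega
  · rcases h with ⟨s, h1, rfl, rfl⟩ | ⟨β, h1, h2, h3, rfl⟩ |
      ⟨f, f', h1, h2, h3, h4, h5, h6, h7, rfl⟩
    · exact Or.inr rfl
    · simp at hz
    · simp at hz; omega
  · rw [h] at hz; simp at hz; omega

lemma U2_of {x y : NV k T} {l : Lab T} (h : NE x y l) (h1 : 2 ≤ l.2.1) (h2 : l.2.1 ≤ 4) :
    ∃ r g' β, x = .hub r ∧ y = .hub g' ∧ r.base ∧ r.σ = l.1 ∧ r.κ = .inl β ∧
      enc (g'.mate r.σ) r.τ β := by
  cases x <;> cases y <;> simp only [NE] at h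
  · obtain ⟨c0, c2, ⟨β, c1, rfl⟩ | ⟨f, c1, rfl⟩⟩ := h
    · simp at h1
    · simp at h2; omega
  · rw [h] at h2; simp at h2; omega
  · rcases h with ⟨s, c1, rfl, rfl⟩ | ⟨β, c1, c2, c3, rfl⟩ |
      ⟨f, f', c1, c2, c3, c4, c5, c6, c7, rfl⟩
    · simp at h1
    · exact ⟨_, _, β, rfl, rfl, c1, rfl, c2, c3⟩
    · simp at h2; omega
  · rw [h] at h2; simp at h2; omega
  · rw [h.2.2] at h2; simp at h2; omega

lemma P4_side {r g' : Hub k T} {β : Code k T} (hb : r.base) (hκ : r.κ = .inl β)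
    (he : enc (g'.mate r.σ) r.τ β) {c d : NV k T} (hc : U1 r.σ c r) (hd : U1 r.σ d g')
    {l : Lab T} (h : NE c d l ∨ NE d c l) : l.1 = r.σ := by
  obtain ⟨σ, τ, κ, bt, bf⟩ := r
  obtain ⟨σ', τ', κ', bt', bf'⟩ := g'
  obtain ⟨rfl, rfl⟩ := hb
  simp only at hκ he hc hd ⊢
  subst hκ
  have a1 := fin3_ne τ
  have a2 := fin3_ne τ'
  rcases hc with ⟨u, β1, rfl, -, -, h1, h2⟩ | rfl <;>
    rcases hd with ⟨u', β2, rfl, h3, -, h4, h5⟩ | rfl
  · simp [NE] at h
  · simp only [NE, or_false] at h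
    obtain ⟨h3, h4, -⟩ := h
    obtain rfl := Sum.inl.inj h1
    rcases he with ⟨-, h5, h6⟩ | ⟨h5, -⟩
    · exact absurd (by rw [← h2, h5]; exact h4) h6
    · exact absurd h3 h5
  · simp only [NE, false_or] at h
    cases σ <;> simp [Hub.mate, Hub.base] at h
  · simp only [NE] at h
    rcases h with h | h <;>
      rcases h with ⟨s, h1, h2, rfl⟩ | ⟨β, h1, h2, h3, rfl⟩ |
        ⟨f, f', h1, h2, h3, h4, h5, h6, h7, rfl⟩ <;>
      cases σ <;> cases σ' <;> (try cases s) <;> cases bt' <;> cases bf' <;>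
      simp_all [Hub.mate, Hub.get, Hub.base, enc]

lemma fix_of_mono {α Λ : Type} [Finite α] [LinearOrder Λ] (w : α → Λ) (hw : Function.Injective w)
    (f : α → α) (h : ∀ x y, w x < w y → w (f x) < w (f y)) (x : α) : f x = x := by
  let _ : LinearOrder α := LinearOrder.lift' w hw
  have hsm : StrictMono f := fun x y hxy => h x y hxy
  exact hsm.apply_eq

theorem host_free {M : ℕ} (hM : 5 ≤ M) (hC : Fintype.card (Color k) < 2 * M) :
    ¬ ∃ φ, IsCopy (pat k (2 * M)) (host k T (2 * M)) φ := by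
  rintro ⟨φ, h1, h2, h3⟩
  have hW : ∀ i j : Fin (2 * M), i ≠ j → ∃ l, HS (φ (.w i)) (φ (.w j)) l :=
    fun i j hij => h2 _ _ (adjW hij)
  have hm : ∃ i, col (φ (.w i)) = .m := by
    by_contra hcon
    push Not at hcon
    have : Function.Injective (fun i : Fin (2 * M) => col (φ (.w i))) := by
      intro i j hij
      by_contra hne
      obtain ⟨l, h | h⟩ := hW i j hne
      · exact h.col_ne (hcon i) hij
      · exact h.col_ne (hcon j) hij.symm
    have := Fintype.card_le_of_injective _ this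
    simp at this
    omega
  obtain ⟨i0, hi0⟩ := hm
  obtain ⟨s, j0, hj0⟩ : ∃ s j, φ (.w i0) = .fix s (.w j) := by
    generalize φ (.w i0) = y at hi0
    rcases y with y | y | ⟨s, y | y | y⟩ <;> simp [col] at hi0 ⊢
  have hσ : ∀ i, ∃ j, φ (.w i) = .fix s (.w j) := by
    intro i
    by_cases hi : i0 = i
    · exact ⟨j0, hi ▸ hj0⟩
    · obtain ⟨l, h⟩ := hW i0 i hi
      rw [hj0] at h
      exact h.marker
  choose σ hσ using hσ
  have hσi : Function.Injective σ := by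
    intro i j hij
    have : φ (.w i) = φ (.w j) := by rw [hσ, hσ, hij]
    simpa using h1 this
  have hnm : ∀ (σ' : Bool) (c : Core k) i, φ (.core σ' c) ≠ .fix s (.w i) := by
    intro σ' c i h
    obtain ⟨j, rfl⟩ := Finite.surjective_of_injective hσi i
    rw [← hσ] at h
    simpa using h1 h
  have hf : ∀ x : {z : Fin (2 * M) × Fin (2 * M) // z.1 < z.2},
      ∃ y : {z : Fin (2 * M) × Fin (2 * M) // z.1 < z.2},
        HS (φ (.w x.1.1)) (φ (.w x.1.2)) (std T s (GE.w y : GE k (2 * M))) ∧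
        s(σ x.1.1, σ x.1.2) = s(y.1.1, y.1.2) := by
    intro x
    rw [hσ, hσ]
    rcases lt_or_gt_of_ne (hσi.ne x.2.ne) with h | h
    · exact ⟨⟨(_, _), h⟩, Or.inl ⟨rfl, .w ⟨(_, _), h⟩, rfl, rfl, by simp [GE.side], rfl⟩, rfl⟩
    · exact ⟨⟨(_, _), h⟩, Or.inr ⟨rfl, .w ⟨(_, _), h⟩, rfl, rfl, by simp [GE.side], rfl⟩,
        Sym2.eq_swap⟩
  choose f hf hf' using hf
  have hord : ∀ (ε ε' : GE k (2 * M)) l l', HS (φ ε.src) (φ ε.tgt) l → HS (φ ε'.src) (φ ε'.tgt) l' →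
      ε.wt < ε'.wt → l ≤ l' := by
    intro ε ε' l l' a b h
    exact host_le a b ((h3 _ (pat_mem.mpr ⟨ε, rfl⟩) _ (pat_mem.mpr ⟨ε', rfl⟩)).mp (pat_lt.mpr h))
  have hfid : ∀ x, f x = x := by
    apply fix_of_mono (fun x => (GE.w x : GE k (2 * M)).wt)
      (fun x y h => by simpa using GE.wt_inj h)
    intro x y hxy
    have a := hord (.w x) (.w y) _ _ (hf x) (hf y) hxy
    rcases lt_trichotomy (GE.w (f x) : GE k (2 * M)).wt (GE.w (f y)).wt with h | h | h
    · exact h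
    · exfalso
      have h' : f x = f y := by simpa using GE.wt_inj h
      have b := hf' x
      rw [h', ← hf' y] at b
      have c : s(x.1.1, x.1.2) = s(y.1.1, y.1.2) := Sym2.map.injective hσi b
      have d : (GE.w x : GE k (2 * M)).ed = (GE.w y).ed := congrArg (Sym2.map GV.w) c
      rw [GE.ed_inj d] at hxy
      exact lt_irrefl _ hxy
    · exact absurd (std_lt (T := T) (s := s) h) (not_lt.mpr a)
  have hsep : ∀ (ε : GE k (2 * M)) l, HS (φ ε.src) (φ ε.tgt) l → ∀ i : ℕ, i ≤ 4 →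
      (ε.zone < 2 * i - 4 → l.zone ≤ sg s * (k + 13) + (2 * i - 4)) ∧
      (2 * i - 4 < ε.zone → sg s * (k + 13) + (2 * i - 4) ≤ l.zone) := by
    intro ε l hl i hi
    let x : {z : Fin (2 * M) × Fin (2 * M) // z.1 < z.2} :=
      ⟨(⟨2 * i, by omega⟩, ⟨2 * i + 1, by omega⟩), by simp [Fin.lt_def]⟩
    have hx := hf x
    rw [hfid] at hx
    have hz : (GE.w x : GE k (2 * M)).zone = 2 * i - 4 := by
      simp only [GE.zone, zW, x]; split_ifs <;> omega
    constructor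
    · intro h
      have := Lam.zone_le (hord ε (.w x) _ _ hl hx (GE.wt_lt.mpr (Or.inl (by omega))))
      rwa [std_zone, hz] at this
    · intro h
      have := Lam.zone_le (hord (.w x) ε _ _ hx hl (GE.wt_lt.mpr (Or.inl (by omega))))
      rwa [std_zone, hz] at this
  have hwin : ∀ (c : CE k), c.zone = 1 ∨ c.zone = 3 → ∃ x' y' l', φ (.core s c.src) = .nv x' ∧
      φ (.core s c.tgt) = .nv y' ∧ (NE x' y' l' ∨ NE y' x' l') ∧ l'.1 = s ∧
      c.zone ≤ l'.2.1 + 1 ∧ l'.2.1 ≤ c.zone + 1 := by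
    intro c hc
    obtain ⟨l, hl⟩ := h2 _ _ (pat_adjE (.core s c))
    have b0 := hsep _ l hl 0 (by omega)
    have b1 := hsep _ l hl 1 (by omega)
    have b2 := hsep _ l hl 2 (by omega)
    have b3 := hsep _ l hl 3 (by omega)
    have b4 := hsep _ l hl 4 (by omega)
    have bb : k + 12 + c.zone ≤ sg s * l.zone ∧ sg s * l.zone ≤ k + 14 + c.zone := by
      cases s <;> simp [GE.zone, sg] at b0 b1 b2 b3 b4 ⊢ <;> omega
    rcases hl with hl | hl
    · obtain ⟨x', y', l', e1, e2, e3, e4, e5⟩ := window hl s (hnm _ _) (by omega) (by omega)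
      exact ⟨x', y', l', e1, e2, Or.inl e3, e4, by omega, by omega⟩
    · obtain ⟨x', y', l', e1, e2, e3, e4, e5⟩ := window hl s (hnm _ _) (by omega) (by omega)
      exact ⟨y', x', l', e2, e1, Or.inr e3, e4, by omega, by omega⟩
  obtain ⟨a', p', l1, ea, ep, n1, s1, -, z1⟩ := hwin .ap (Or.inl rfl)
  obtain ⟨q', b', l2, eq, eb, n2, s2, -, z2⟩ := hwin .qb (Or.inl rfl)
  obtain ⟨p'', q'', l3, ep', eq', n3, s3, z3, z3'⟩ := hwin .pq (Or.inr rfl)
  simp only [CE.src, CE.tgt, CE.zone] at ea ep eq eb ep' eq' z1 z2 z3 z3'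
  obtain rfl : p' = p'' := by simpa [ep] using ep'
  obtain rfl : q' = q'' := by simpa [eq] using eq'
  obtain ⟨l, hl⟩ := h2 _ _ (pat_adjE (.root s))
  have b0 := hsep _ l hl 0 (by omega)
  have b4 := hsep _ l hl 4 (by omega)
  have bb : sg s * l.zone ≤ k + 9 := by
    cases s <;> simp [GE.zone, sg] at b0 b4 ⊢ <;> omega
  simp only [GE.src, GE.tgt, ea, eb, HS, HE] at hl
  obtain ⟨l0, n0, rfl⟩ : ∃ l0, (NE a' b' l0 ∨ NE b' a' l0) ∧ l = toLam k l0 := by
    rcases hl with ⟨l0, h, h'⟩ | ⟨l0, h, h'⟩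
    · exact ⟨l0, Or.inl h, h'⟩
    · exact ⟨l0, Or.inr h, h'⟩
  have hs : l0.1 = s := by
    rcases n3 with n3 | n3
    · obtain ⟨r, g', β, rfl, rfl, c1, c2, c3, c4⟩ := U2_of n3 (by omega) (by omega)
      have d1 := U1_of n1 (by omega)
      have d2 := U1_of n2.symm (by omega)
      rw [s1, ← s3, ← c2] at d1
      rw [s2, ← s3, ← c2] at d2
      rw [P4_side c1 c3 c4 d1 d2 n0, c2, s3]
    · obtain ⟨r, g', β, rfl, rfl, c1, c2, c3, c4⟩ := U2_of n3 (by omega) (by omega)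
      have d1 := U1_of n1 (by omega)
      have d2 := U1_of n2.symm (by omega)
      rw [s1, ← s3, ← c2] at d1
      rw [s2, ← s3, ← c2] at d2
      rw [P4_side c1 c3 c4 d2 d1 n0.symm, c2, s3]
  rw [toLam_zone, hs] at bb
  cases s <;> simp [sg] at bb <;> omega

end Pool.Agent.P.MP_775916_co
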