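import Mathlib

namespace Pool.Agent.P.MP_775916_co

open Finset

variable {V : Type} (H : SimpleGraph V) (l : Sym2 V → ℝ)

def Rev (u u' : V) : Prop :=
  ∃ v w, H.Adj u v ∧ H.Adj u w ∧ H.Adj u' v ∧ H.Adj u' w ∧
    l s(u, v) < l s(u, w) ∧ l s(u', w) < l s(u', v)

def Chain (k : ℕ) (u u' : V) : Prop :=
  ∃ y : ℕ → V, (∀ i ≤ k, H.Adj u (y i) ∧ H.Adj u' (y i)) ∧
    ∀ i < k, H.Adj (y i) (y (i + 1)) ∧ l s(u, y i) < l s(y i, y (i + 1)) ∧
      l s(y i, y (i + 1)) < l s(u', y i)

def Compat (k : ℕ) (u u' : V) : Prop := Rev H l u u' ∨ Chain H l k u u' ∨ Chain H l k u' u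

def sig (k T i : ℕ) : ℕ := ∑ s ∈ range k, if T ^ s ∣ i + 1 then T ^ (s + 1) else 0

open Classical in
noncomputable def Sset (k T i : ℕ) : Finset ℕ :=
  (range (i + 1)).filter (fun p => ∃ s < k, T ^ s ∣ i + 1 ∧ i - p < T ^ (s + 1))

lemma card_Sset (k T i : ℕ) : (Sset k T i).card ≤ sig k T i := by
  classical
  have h : Sset k T i ⊆ (range k).biUnion
      (fun s => if T ^ s ∣ i + 1 then (range (T ^ (s + 1))).image (fun d => i - d) else ∅) := by
    intro p hp
    simp only [Sset, mem_filter, mem_range] at hp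
    obtain ⟨hp, s, hs, hd, hlt⟩ := hp
    simp only [mem_biUnion, mem_range]
    refine ⟨s, hs, ?_⟩
    rw [if_pos hd]
    simp only [mem_image, mem_range]
    exact ⟨i - p, hlt, by omega⟩
  refine (card_le_card h).trans (card_biUnion_le.trans ?_)
  unfold sig
  refine sum_le_sum fun s _ => ?_
  split_ifs
  · exact card_image_le.trans (by simp)
  · simp

lemma sum_sig (k T : ℕ) : ∑ i ∈ range (T ^ k), sig k T i ≤ k * T ^ (k + 1) := by
  unfold sig
  rw [sum_comm]
  have : ∀ s ∈ range k, ∑ i ∈ range (T ^ k), (if T ^ s ∣ i + 1 then T ^ (s + 1) else 0)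
      ≤ T ^ (k + 1) := by
    intro s hs
    rw [← sum_filter, sum_const, Nat.card_multiples, smul_eq_mul]
    calc T ^ k / T ^ s * T ^ (s + 1) = (T ^ k / T ^ s * T ^ s) * T := by ring
      _ ≤ T ^ k * T := Nat.mul_le_mul_right _ (Nat.div_mul_le_self _ _)
      _ = T ^ (k + 1) := by ring
  refine (sum_le_card_nsmul _ _ _ this).trans (by simp)

variable [Fintype V]

open Classical in
noncomputable def rk (u v : V) : ℕ :=
  ((H.neighborFinset u).filter (fun w => l s(u, w) < l s(u, v))).card

open Classical in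
noncomputable def cnt (y : ℕ → V) (u : V) (p i : ℕ) : ℕ :=
  ((range (i + 1)).filter (fun q => l s(y p, y q) ≤ l s(u, y p))).card

lemma rk_lt {u v w : V} (hv : H.Adj u v) (h : l s(u, v) < l s(u, w)) : rk H l u v < rk H l u w := by
  classical
  unfold rk
  apply card_lt_card
  rw [Finset.ssubset_iff_of_subset]
  · exact ⟨v, by simp [hv, h], by simp⟩
  · intro z hz
    simp only [mem_filter] at hz ⊢
    exact ⟨hz.1, hz.2.trans h⟩

open Classical in
lemma rk_lt_deg {u v : V} (hv : H.Adj u v) : rk H l u v < H.degree u := by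
  unfold rk
  rw [← SimpleGraph.card_neighborFinset_eq_degree]
  apply card_lt_card
  rw [Finset.ssubset_iff_of_subset (filter_subset _ _)]
  exact ⟨v, by simp [hv], by simp⟩

omit [Fintype V] in
lemma cnt_lt {y : ℕ → V} {u u' : V} {p q i : ℕ} (hq : q ≤ i)
    (h1 : l s(u, y p) < l s(y p, y q)) (h2 : l s(y p, y q) < l s(u', y p)) :
    cnt l y u p i < cnt l y u' p i := by
  classical
  unfold cnt
  apply card_lt_card
  rw [Finset.ssubset_iff_of_subset]
  · refine ⟨q, ?_, ?_⟩
    · simp only [mem_filter, mem_range]; exact ⟨by omega, h2.le⟩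
    · simp only [mem_filter, mem_range, not_and, not_le]; exact fun _ => h1
  · intro z hz
    simp only [mem_filter] at hz ⊢
    exact ⟨hz.1, hz.2.trans (h1.trans h2).le⟩

omit [Fintype V] in
lemma cnt_le (y : ℕ → V) (u : V) (p i : ℕ) : cnt l y u p i ≤ i + 1 := by
  classical
  unfold cnt
  exact (card_filter_le _ _).trans (by simp)

omit [Fintype V] in
lemma cnt_congr {y y' : ℕ → V} (u : V) {p i : ℕ} (hp : p ≤ i) (h : ∀ q ≤ i, y q = y' q) :
    cnt l y u p i = cnt l y' u p i := by
  classical
  unfold cnt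
  congr 1
  apply filter_congr
  intro q hq
  rw [h p hp, h q (by simp at hq; omega)]

omit [Fintype V] in
lemma chain_outside {k T j : ℕ} (hk : 1 ≤ k) (hT : 1 ≤ T) (hj : j ≤ T ^ k) {y : ℕ → V} {u u' : V}
    (hc : ∀ i < j, ∀ p ∈ Sset k T i, cnt l y u p i = cnt l y u' p i)
    (h : Chain H l k u u') : ∃ v, H.Adj u v ∧ H.Adj u' v ∧ ∀ p < j, y p ≠ v := by
  classical
  by_contra hcon
  push Not at hcon
  obtain ⟨z, hz, hch⟩ := h
  have hP : ∀ i ≤ k, ∃ p < j, y p = z i := fun i hi => hcon _ (hz i hi).1 (hz i hi).2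
  choose! P hPj hPy using hP
  have dead : ∀ s < k, ∀ i < j, P (s + 1) ≤ i → P s ∉ Sset k T i := by
    intro s hs i hi hq hmem
    have h1 := (hch s hs).2.1
    have h2 := (hch s hs).2.2
    rw [← hPy s hs.le, ← hPy (s + 1) hs] at h1 h2
    have := cnt_lt l hq h1 h2
    rw [hc i hi _ hmem] at this
    exact lt_irrefl _ this
  have step : ∀ s < k, j ≤ P s + T ^ (k - s) → j < P (s + 1) + T ^ (k - (s + 1)) := by
    intro s hs hle
    have hlt : P s < P (s + 1) := by
      by_contra hge
      push Not at hge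
      apply dead s hs (P s) (hPj s hs.le) hge
      simp only [Sset, mem_filter, mem_range]
      exact ⟨by omega, 0, by omega, by simp, by simp; omega⟩
    by_contra hge
    push Not at hge
    set E := T ^ (k - (s + 1)) with hE
    have hEpos : 0 < E := by positivity
    have h1 : P (s + 1) < E * (P (s + 1) / E + 1) := Nat.lt_mul_div_succ _ hEpos
    have h2 : E * (P (s + 1) / E + 1) ≤ P (s + 1) + E := by
      have := Nat.mul_div_le (P (s + 1)) E
      rw [mul_add, mul_one]; omega
    apply dead s hs (E * (P (s + 1) / E + 1) - 1) (by omega) (by omega)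
    simp only [Sset, mem_filter, mem_range]
    refine ⟨by omega, k - (s + 1), by omega, ?_, ?_⟩
    · rw [show E * (P (s + 1) / E + 1) - 1 + 1 = E * (P (s + 1) / E + 1) by omega]
      exact Dvd.intro _ rfl
    · rw [show k - (s + 1) + 1 = k - s by omega]; omega
  have all : ∀ s ≤ k, j ≤ P s + T ^ (k - s) := by
    intro s hs
    induction s with
    | zero => simp; omega
    | succ s ih => exact (step s hs (ih (by omega))).le
  have h1 := step (k - 1) (by omega) (all _ (by omega))
  rw [show k - 1 + 1 = k by omega] at h1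
  have h2 := hPj k le_rfl
  simp at h1
  omega

lemma compat_outside {k T j : ℕ} (hk : 1 ≤ k) (hT : 1 ≤ T) (hj : j ≤ T ^ k) {y : ℕ → V} {u u' : V}
    (hr : ∀ p < j, rk H l u (y p) = rk H l u' (y p))
    (hc : ∀ i < j, ∀ p ∈ Sset k T i, cnt l y u p i = cnt l y u' p i)
    (h : Compat H l k u u') : ∃ v, H.Adj u v ∧ H.Adj u' v ∧ ∀ p < j, y p ≠ v := by
  rcases h with h | h | h
  · obtain ⟨v, w, h1, h2, h3, h4, h5, h6⟩ := h
    by_contra hcon
    push Not at hcon
    obtain ⟨p, hp, rfl⟩ := hcon v h1 h3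
    obtain ⟨q, hq, rfl⟩ := hcon w h2 h4
    have a := rk_lt H l h1 h5
    have b := rk_lt H l h4 h6
    rw [hr p hp, hr q hq] at a
    omega
  · exact chain_outside H l hk hT hj hc h
  · obtain ⟨v, h1, h2, h3⟩ := chain_outside H l hk hT hj
      (fun i hi p hp => (hc i hi p hp).symm) h
    exact ⟨v, h2, h1, h3⟩

def Phi (k T j : ℕ) : ℕ := ∑ i ∈ Ico j (T ^ k), (sig k T i + 4)

open Classical in
lemma kernel {k T : ℕ} (hk : 1 ≤ k) (hT : 1 ≤ T) : ∀ (d j : ℕ), j + d = T ^ k →
    ∀ (y : ℕ → V) (U : Finset V), Set.InjOn y (Set.Iio j) →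
    (∀ u ∈ U, ∀ p < j, H.Adj u (y p)) → (∀ u ∈ U, H.degree u ≤ T ^ k) →
    (∀ u ∈ U, ∀ u' ∈ U, u ≠ u' → ¬ H.Adj u u' → Compat H l k u u') →
    (∀ u ∈ U, ∀ u' ∈ U, ∀ p < j, rk H l u (y p) = rk H l u' (y p)) →
    (∀ u ∈ U, ∀ u' ∈ U, ∀ i < j, ∀ p ∈ Sset k T i, cnt l y u p i = cnt l y u' p i) →
    U.card ≤ (T ^ k + 1) ^ (Phi k T j + 1) := by
  intro d
  induction d with
  | zero =>
    intro j hj y U hinj hadj hdeg hcomp hr hc
    rcases U.eq_empty_or_nonempty with rfl | ⟨u0, hu0⟩
    · simp
    have hsub : U ⊆ insert u0 (H.neighborFinset u0) := by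
      intro u hu
      by_contra hn
      simp only [mem_insert, SimpleGraph.mem_neighborFinset, not_or] at hn
      obtain ⟨v, hv, -, hv'⟩ := compat_outside H l hk hT (by omega) (hr u0 hu0 u hu)
        (hc u0 hu0 u hu) (hcomp u0 hu0 u hu (Ne.symm hn.1) hn.2)
      have h1 : insert v ((range j).image y) ⊆ H.neighborFinset u0 := by
        intro z hz
        simp only [mem_insert, mem_image, mem_range] at hz
        rcases hz with rfl | ⟨p, hp, rfl⟩
        · simpa using hv
        · simpa using hadj u0 hu0 p hp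
      have h2 := card_le_card h1
      rw [card_insert_of_notMem (by simpa using hv'), card_image_of_injOn (by simpa using hinj),
        card_range, SimpleGraph.card_neighborFinset_eq_degree] at h2
      have := hdeg u0 hu0
      omega
    have h3 := (card_le_card hsub).trans (card_insert_le _ _)
    rw [SimpleGraph.card_neighborFinset_eq_degree] at h3
    have := hdeg u0 hu0
    calc U.card ≤ T ^ k + 1 := by omega
      _ = (T ^ k + 1) ^ 1 := by simp
      _ ≤ _ := Nat.pow_le_pow_right (by omega) (by omega)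
  | succ d ih =>
    intro j hj y U hinj hadj hdeg hcomp hr hc
    rcases U.eq_empty_or_nonempty with rfl | ⟨u0, hu0⟩
    · simp
    set D := T ^ k with hD
    set U' := U \ insert u0 (H.neighborFinset u0) with hU'
    have hout : ∀ u ∈ U', ∃ v, H.Adj u0 v ∧ H.Adj u v ∧ ∀ p < j, y p ≠ v := by
      intro u hu
      simp only [hU', mem_sdiff, mem_insert, SimpleGraph.mem_neighborFinset, not_or] at hu
      exact compat_outside H l hk hT (by omega) (hr u0 hu0 u hu.1)
        (hc u0 hu0 u hu.1) (hcomp u0 hu0 u hu.1 (Ne.symm hu.2.1) hu.2.2)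
    choose! Y hY0 hY1 hY2 using hout
    let code : V → V × ℕ × (Sset k T j → ℕ) := fun u =>
      (Y u, rk H l u (Y u), fun p => cnt l (Function.update y j (Y u)) u p j)
    let C : Finset (V × ℕ × (Sset k T j → ℕ)) :=
      H.neighborFinset u0 ×ˢ range (D + 1) ×ˢ Fintype.piFinset (fun _ => range (D + 1))
    have hUU : U' ⊆ U := sdiff_subset
    have hmaps : ∀ u ∈ U', code u ∈ C := by
      intro u hu
      simp only [C, code, mem_product, SimpleGraph.mem_neighborFinset, mem_range,
        Fintype.mem_piFinset]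
      refine ⟨hY0 u hu, ?_, fun p => ?_⟩
      · have := rk_lt_deg H l (hY1 u hu)
        have := hdeg u (hUU hu)
        omega
      · have := cnt_le l (Function.update y j (Y u)) u p j
        omega
    have hfib : ∀ c ∈ C, (U'.filter (fun u => code u = c)).card ≤ (D + 1) ^ (Phi k T (j + 1) + 1) := by
      intro c _
      rcases (U'.filter (fun u => code u = c)).eq_empty_or_nonempty with he | ⟨u1, hu1⟩
      · rw [he]; simp
      have hmem : ∀ u ∈ U'.filter (fun u => code u = c), u ∈ U' ∧ Y u = c.1 ∧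
          rk H l u c.1 = c.2.1 ∧
          ∀ p (hp : p ∈ Sset k T j), cnt l (Function.update y j c.1) u p j = c.2.2 ⟨p, hp⟩ := by
        intro u hu
        rw [mem_filter] at hu
        obtain ⟨hu, rfl⟩ := hu
        exact ⟨hu, rfl, rfl, fun p hp => rfl⟩
      have hupd : ∀ p < j, Function.update y j c.1 p = y p := fun p hp =>
        Function.update_of_ne (by omega) _ _
      have hupj : Function.update y j c.1 j = c.1 := Function.update_self _ _ _
      apply ih (j + 1) (by omega) (Function.update y j c.1)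
      · intro p hp q hq hpq
        simp only [Set.mem_Iio] at hp hq
        have hn := hY2 u1 (hmem u1 hu1).1
        rw [(hmem u1 hu1).2.1] at hn
        rcases Nat.lt_succ_iff_lt_or_eq.mp hp with hp | rfl <;>
          rcases Nat.lt_succ_iff_lt_or_eq.mp hq with hq | rfl
        · rw [hupd p hp, hupd q hq] at hpq; exact hinj hp hq hpq
        · rw [hupd p hp, hupj] at hpq; exact absurd hpq (hn p hp)
        · rw [hupd q hq, hupj] at hpq; exact absurd hpq.symm (hn q hq)
        · rfl
      · intro u hu p hp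
        rcases Nat.lt_succ_iff_lt_or_eq.mp hp with hp | rfl
        · rw [hupd p hp]; exact hadj u (hUU (hmem u hu).1) p hp
        · rw [hupj, ← (hmem u hu).2.1]; exact hY1 u (hmem u hu).1
      · intro u hu; exact hdeg u (hUU (hmem u hu).1)
      · intro u hu u' hu'; exact hcomp u (hUU (hmem u hu).1) u' (hUU (hmem u' hu').1)
      · intro u hu u' hu' p hp
        rcases Nat.lt_succ_iff_lt_or_eq.mp hp with hp | rfl
        · rw [hupd p hp]; exact hr u (hUU (hmem u hu).1) u' (hUU (hmem u' hu').1) p hp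
        · rw [hupj, (hmem u hu).2.2.1, (hmem u' hu').2.2.1]
      · intro u hu u' hu' i hi p hp
        rcases Nat.lt_succ_iff_lt_or_eq.mp hi with hi | rfl
        · have hpi : p ≤ i := by
            simp only [Sset, mem_filter, mem_range] at hp; omega
          rw [cnt_congr l u hpi (y' := y) (fun q hq => hupd q (by omega)),
            cnt_congr l u' hpi (y' := y) (fun q hq => hupd q (by omega))]
          exact hc u (hUU (hmem u hu).1) u' (hUU (hmem u' hu').1) i hi p hp
        · rw [(hmem u hu).2.2.2 p hp, (hmem u' hu').2.2.2 p hp]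
    have hU'card := card_le_mul_card_image_of_maps_to hmaps _ hfib
    have hC : C.card ≤ (D + 1) ^ (sig k T j + 2) := by
      simp only [C, card_product, card_range, Fintype.card_piFinset, prod_const, card_univ,
        Fintype.card_coe, SimpleGraph.card_neighborFinset_eq_degree]
      have h1 := hdeg u0 hu0
      have h2 : (D + 1) ^ (Sset k T j).card ≤ (D + 1) ^ sig k T j :=
        Nat.pow_le_pow_right (by omega) (card_Sset k T j)
      calc H.degree u0 * ((D + 1) * (D + 1) ^ (Sset k T j).card)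
          ≤ (D + 1) * ((D + 1) * (D + 1) ^ sig k T j) := by gcongr; omega
        _ = _ := by ring
    have hU : U.card ≤ U'.card + (D + 1) := by
      have h1 : U.card ≤ U'.card + (insert u0 (H.neighborFinset u0)).card :=
        (card_le_card le_sdiff_sup).trans (card_union_le _ _)
      have h2 := card_insert_le u0 (H.neighborFinset u0)
      rw [SimpleGraph.card_neighborFinset_eq_degree] at h2
      have := hdeg u0 hu0
      omega
    have hPhi : Phi k T j = Phi k T (j + 1) + (sig k T j + 4) := by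
      unfold Phi
      rw [sum_eq_sum_Ico_succ_bot (by omega)]
      ring
    have hX : 1 ≤ (D + 1) ^ (Phi k T (j + 1) + 1) * (D + 1) ^ (sig k T j + 2) :=
      Nat.one_le_iff_ne_zero.mpr (by positivity)
    have hD1 : 1 ≤ D := Nat.one_le_pow _ _ hT
    set X := (D + 1) ^ (Phi k T (j + 1) + 1) * (D + 1) ^ (sig k T j + 2) with hXdef
    have h1 : U'.card ≤ X := hU'card.trans (Nat.mul_le_mul_left _ hC)
    calc U.card ≤ X + (D + 1) * X := by nlinarith
      _ = X * (D + 2) := by ring
      _ ≤ X * (D + 1) ^ 2 := Nat.mul_le_mul_left _ (by nlinarith)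
      _ = _ := by rw [hXdef, hPhi]; ring

open Classical in
theorem lower_bound {k T : ℕ} (hk : 1 ≤ k) (hT : 1 ≤ T)
    (hcomp : ∀ u u', u ≠ u' → ¬ H.Adj u u' → Compat H l k u u')
    (he : 4 * H.edgeSet.ncard ≤ T ^ k * Fintype.card V) :
    Fintype.card V ≤ 2 * (T ^ k + 1) ^ (k * T ^ (k + 1) + 4 * T ^ k + 1) := by
  set L := univ.filter (fun u => H.degree u ≤ T ^ k) with hL
  rcases isEmpty_or_nonempty V with hV | ⟨⟨v0⟩⟩
  · simp
  have h1 := kernel H l hk hT (T ^ k) 0 (by simp) (fun _ => v0) L (by simp) (by simp)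
    (by simp [hL]) (fun u _ u' _ => hcomp u u') (by simp) (by simp)
  have h2 : Phi k T 0 ≤ k * T ^ (k + 1) + 4 * T ^ k := by
    unfold Phi
    rw [← range_eq_Ico, sum_add_distrib]
    have := sum_sig k T
    simp only [sum_const, card_range, smul_eq_mul]
    omega
  have h3 : L.card ≤ (T ^ k + 1) ^ (k * T ^ (k + 1) + 4 * T ^ k + 1) :=
    h1.trans (Nat.pow_le_pow_right (by omega) (by omega))
  have h4 : Lᶜ.card * (T ^ k + 1) ≤ 2 * H.edgeSet.ncard := by
    have a : ∑ v, H.degree v = 2 * H.edgeFinset.card := H.sum_degrees_eq_twice_card_edges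
    rw [← SimpleGraph.coe_edgeFinset, Set.ncard_coe_finset, ← a]
    calc Lᶜ.card * (T ^ k + 1) = ∑ _v ∈ Lᶜ, (T ^ k + 1) := by simp
      _ ≤ ∑ v ∈ Lᶜ, H.degree v := by
          apply sum_le_sum
          intro v hv
          simp only [hL, mem_compl, mem_filter, mem_univ, true_and, not_le] at hv
          omega
      _ ≤ _ := sum_le_sum_of_subset (subset_univ _)
  have h5 : L.card + Lᶜ.card = Fintype.card V := card_add_card_compl L
  have h6 : 2 * Lᶜ.card ≤ Fintype.card V := by
    by_contra hcon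
    push Not at hcon
    have : T ^ k * Fintype.card V < T ^ k * Fintype.card V + 1 := by omega
    nlinarith
  omega

end Pool.Agent.P.MP_775916_co
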