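import Pool.Agent.P.MP_775916_co.Defs
import Pool.Agent.P.MP_775916_co.Lower

namespace Pool.Agent.P.MP_775916_co

open Finset

lemma exists_refine {α Λ : Type} [Finite α] [LinearOrder Λ] (w : α → Λ) :
    ∃ l : α → ℝ, Function.Injective l ∧ ∀ a b, w a < w b → l a < l b := by
  classical
  have := Fintype.ofFinite α
  let ι : α → ℕ := fun a => (Fintype.equivFin α a : ℕ)
  have hι : Function.Injective ι := fun a b h => (Fintype.equivFin α).injective (Fin.ext h)
  let W : α → Λ ×ₗ ℕ := fun a => toLex (w a, ι a)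
  have hW : Function.Injective W := fun a b h => hι (congrArg (fun z => (ofLex z).2) h)
  let r : α → ℕ := fun a => (univ.filter (fun b => W b < W a)).card
  have hr : ∀ a b, W a < W b → r a < r b := by
    intro a b h
    apply card_lt_card
    rw [Finset.ssubset_iff_of_subset]
    · exact ⟨a, by simp [h], by simp⟩
    · intro z hz
      simp only [mem_filter, mem_univ, true_and] at hz ⊢
      exact hz.trans h
  refine ⟨fun a => (r a : ℝ), ?_, ?_⟩
  · intro a b h
    have h' : r a = r b := Nat.cast_injective (R := ℝ) h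
    apply hW
    rcases lt_trichotomy (W a) (W b) with h1 | h1 | h1
    · have := hr _ _ h1; omega
    · exact h1
    · have := hr _ _ h1; omega
  · intro a b h
    have : W a < W b := Prod.Lex.toLex_lt_toLex.mpr (Or.inl h)
    exact Nat.cast_lt.mpr (hr _ _ this)

variable {W V : Type}

lemma addEdge_label_ne (H : EOGraph V) (u v : V) (t : ℝ) (ht : Fresh H t) {e : Sym2 V}
    (he : e ≠ s(u, v)) : (addEdge H u v t ht).label e = H.label e := by
  simp [addEdge, he]

lemma addEdge_label_self (H : EOGraph V) (u v : V) (t : ℝ) (ht : Fresh H t) :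
    (addEdge H u v t ht).label s(u, v) = t := by
  simp [addEdge]

lemma addEdge_adj (H : EOGraph V) (u v : V) (t : ℝ) (ht : Fresh H t) {x y : V} :
    (addEdge H u v t ht).graph.Adj x y ↔ H.graph.Adj x y ∨ (s(x, y) = s(u, v) ∧ x ≠ y) := by
  simp [addEdge, SimpleGraph.edge_adj]

lemma IsCopy.mono {G : EOGraph W} {H1 H2 : EOGraph V} {φ : W → V} (h : IsCopy G H1 φ)
    (hle : H1.graph ≤ H2.graph) (hl : ∀ e ∈ H1.graph.edgeSet, H2.label e = H1.label e) :
    IsCopy G H2 φ := by
  obtain ⟨h1, h2, h3⟩ := h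
  have hm : ∀ e ∈ G.graph.edgeSet, e.map φ ∈ H1.graph.edgeSet := by
    intro e he
    induction e using Sym2.ind with
    | h x y => exact h2 x y he
  refine ⟨h1, fun x y hxy => hle (h2 x y hxy), fun e he f hf => ?_⟩
  rw [hl _ (hm e he), hl _ (hm f hf)]
  exact h3 e he f hf

lemma isCopy_of_lt {G : EOGraph W} {H : EOGraph V} {φ : W → V} (h1 : Function.Injective φ)
    (h2 : ∀ x y, G.graph.Adj x y → H.graph.Adj (φ x) (φ y))
    (h3 : ∀ e ∈ G.graph.edgeSet, ∀ f ∈ G.graph.edgeSet,
      G.label e < G.label f → H.label (e.map φ) < H.label (f.map φ)) : IsCopy G H φ := by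
  refine ⟨h1, h2, fun e he f hf => ⟨h3 e he f hf, fun h => ?_⟩⟩
  rcases lt_trichotomy (G.label e) (G.label f) with h4 | h4 | h4
  · exact h4
  · rw [G.inj he hf h4] at h; exact absurd h (lt_irrefl _)
  · exact absurd (h3 f hf e he h4) (not_lt.mpr h.le)

lemma Compat.symm {H : SimpleGraph V} {l : Sym2 V → ℝ} {k : ℕ} {u u' : V}
    (h : Compat H l k u u') : Compat H l k u' u := by
  rcases h with ⟨v, w, h1, h2, h3, h4, h5, h6⟩ | h | h
  · exact Or.inl ⟨w, v, h4, h3, h2, h1, h6, h5⟩
  · exact Or.inr (Or.inr h)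
  · exact Or.inr (Or.inl h)

lemma compat_transfer {G : EOGraph W} {H : EOGraph V} {u v : V} {t : ℝ} {ht : Fresh H t}
    {φ : W → V} (h : IsCopy G (addEdge H u v t ht) φ) {x y : W} (hxy : s(φ x, φ y) = s(u, v))
    {k : ℕ} (hc : Compat G.graph G.label k x y) : Compat H.graph H.label k (φ x) (φ y) := by
  obtain ⟨h1, h2, h3⟩ := h
  have hne : ∀ a b, s(a, b) ≠ s(x, y) → s(φ a, φ b) ≠ s(u, v) := by
    intro a b hab h
    rw [← hxy] at h
    exact hab (Sym2.map.injective h1 h)
  have hadj : ∀ a b, G.graph.Adj a b → s(a, b) ≠ s(x, y) → H.graph.Adj (φ a) (φ b) := by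
    intro a b hab hn
    rcases (addEdge_adj H u v t ht).mp (h2 a b hab) with h | h
    · exact h
    · exact absurd h.1 (hne a b hn)
  have hlt : ∀ a b c d, G.graph.Adj a b → G.graph.Adj c d → s(a, b) ≠ s(x, y) →
      s(c, d) ≠ s(x, y) → G.label s(a, b) < G.label s(c, d) →
      H.label s(φ a, φ b) < H.label s(φ c, φ d) := by
    intro a b c d hab hcd n1 n2 h
    have := (h3 s(a, b) hab s(c, d) hcd).mp h
    simp only [Sym2.map_mk] at this
    rwa [addEdge_label_ne _ _ _ _ _ (hne a b n1), addEdge_label_ne _ _ _ _ _ (hne c d n2)] at this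
  have n1 : ∀ z c, G.graph.Adj x z → G.graph.Adj y z → s(c, z) ≠ s(x, y) := by
    intro z c a b h
    rcases Sym2.eq_iff.mp h with ⟨-, h⟩ | ⟨-, h⟩
    · exact b.ne h.symm
    · exact a.ne h.symm
  have chain : ∀ x' y', (∀ z c, G.graph.Adj x' z → G.graph.Adj y' z → s(c, z) ≠ s(x, y)) →
      Chain G.graph G.label k x' y' → Chain H.graph H.label k (φ x') (φ y') := by
    intro x' y' hn ⟨z, hz, hch⟩
    refine ⟨fun i => φ (z i), fun i hi => ⟨hadj _ _ (hz i hi).1 (hn _ _ (hz i hi).1 (hz i hi).2),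
      hadj _ _ (hz i hi).2 (hn _ _ (hz i hi).1 (hz i hi).2)⟩, fun i hi => ?_⟩
    have a := hz i hi.le
    have b := hz (i + 1) hi
    obtain ⟨c1, c2, c3⟩ := hch i hi
    exact ⟨hadj _ _ c1 (hn _ _ b.1 b.2), hlt _ _ _ _ a.1 c1 (hn _ _ a.1 a.2) (hn _ _ b.1 b.2) c2,
      hlt _ _ _ _ c1 a.2 (hn _ _ b.1 b.2) (hn _ _ a.1 a.2) c3⟩
  rcases hc with ⟨a, b, c1, c2, c3, c4, c5, c6⟩ | hc | hc
  · exact Or.inl ⟨φ a, φ b, hadj _ _ c1 (n1 _ _ c1 c3), hadj _ _ c2 (n1 _ _ c2 c4),
      hadj _ _ c3 (n1 _ _ c1 c3), hadj _ _ c4 (n1 _ _ c2 c4),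
      hlt _ _ _ _ c1 c2 (n1 _ _ c1 c3) (n1 _ _ c2 c4) c5,
      hlt _ _ _ _ c4 c3 (n1 _ _ c2 c4) (n1 _ _ c1 c3) c6⟩
  · exact Or.inr (Or.inl (chain x y n1 hc))
  · exact Or.inr (Or.inr (chain y x (fun z c a b => n1 z c b a) hc))

lemma compat_of_semisat {G : EOGraph W} {H : EOGraph V} {k : ℕ}
    (hG : ∀ x y, G.graph.Adj x y → Compat G.graph G.label k x y)
    (hH : IsSemisatHost .s G H) :
    ∀ u u', u ≠ u' → ¬ H.graph.Adj u u' → Compat H.graph H.label k u u' := by
  intro u v huv hn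
  obtain ⟨t, ht, φ, hφ, e, he, hee⟩ := hH u v huv hn
  induction e using Sym2.ind with
  | h x y =>
    have := compat_transfer hφ hee (hG x y he)
    rcases Sym2.eq_iff.mp hee with ⟨rfl, rfl⟩ | ⟨rfl, rfl⟩
    · exact this
    · exact this.symm

lemma exists_below [Finite V] (H : EOGraph V) : ∃ t, ∀ e, t < H.label e := by
  obtain ⟨b, hb⟩ := (Set.finite_range H.label).bddBelow
  exact ⟨b - 1, fun e => by have := hb ⟨e, rfl⟩; linarith⟩

lemma atPositions_s [Finite V] {H : EOGraph V} {P : (t : ℝ) → Fresh H t → Prop} {x : Variant}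
    (h : AtPositions x H P) : AtPositions .s H P := by
  obtain ⟨t, ht⟩ := exists_below H
  have hf : Fresh H t := fun e _ => (ht e).ne'
  cases x with
  | e => exact ⟨t, hf, h t hf⟩
  | m => exact ⟨t, hf, h t hf (fun e _ => ht e)⟩
  | s => exact h

lemma atPositions_e [Finite V] {H : EOGraph V} {P : (t : ℝ) → Fresh H t → Prop} {x : Variant}
    (h : AtPositions .e H P) : AtPositions x H P := by
  cases x with
  | e => exact h
  | m => exact fun t ht _ => h t ht
  | s => exact atPositions_s h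

lemma atPositions_mono {H : EOGraph V} {P Q : (t : ℝ) → Fresh H t → Prop} {x : Variant}
    (hPQ : ∀ t ht, P t ht → Q t ht) (h : AtPositions x H P) : AtPositions x H Q := by
  cases x with
  | e => exact fun t ht => hPQ t ht (h t ht)
  | m => exact fun t ht hb => hPQ t ht (h t ht hb)
  | s => obtain ⟨t, ht, h⟩ := h; exact ⟨t, ht, hPQ t ht h⟩

lemma semisat_of_sat {G : EOGraph W} {H : EOGraph V} {x : Variant} (h : IsSatHost x G H) :
    IsSemisatHost x G H := by
  intro u v huv hn
  refine atPositions_mono ?_ (h.2 u v huv hn)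
  rintro t ht ⟨φ, hφ⟩
  refine ⟨φ, hφ, ?_⟩
  by_contra hcon
  push Not at hcon
  apply h.1
  refine ⟨φ, hφ.1, fun a b hab => ?_, fun e he f hf => ?_⟩
  · rcases (addEdge_adj H u v t ht).mp (hφ.2.1 a b hab) with h | h
    · exact h
    · exact absurd h.1 (hcon s(a, b) hab)
  · rw [hφ.2.2 e he f hf, addEdge_label_ne _ _ _ _ _ (hcon e he),
      addEdge_label_ne _ _ _ _ _ (hcon f hf)]

lemma greedy [Finite V] {G : EOGraph W} (H0 : EOGraph V) (A : Set (Sym2 V))
    (hA : H0.graph.edgeSet ⊆ A) (hfree : ¬ ∃ φ, IsCopy G H0 φ)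
    (hsat : ∀ u v, u ≠ v → s(u, v) ∉ A → ∀ t ht, ∃ φ, IsCopy G (addEdge H0 u v t ht) φ) :
    ∃ H : EOGraph V, IsSatHost .e G H ∧ H.graph.edgeSet ⊆ A := by
  let P : EOGraph V → Prop := fun H => H0.graph ≤ H.graph ∧
    (∀ e ∈ H0.graph.edgeSet, H.label e = H0.label e) ∧ H.graph.edgeSet ⊆ A ∧ ¬ ∃ φ, IsCopy G H φ
  let S : Set ℕ := {n | ∃ H, P H ∧ H.graph.edgeSet.ncard = n}
  have hne : S.Nonempty := ⟨_, H0, ⟨le_rfl, fun _ _ => rfl, hA, hfree⟩, rfl⟩
  have hbd : BddAbove S := ⟨(Set.univ : Set (Sym2 V)).ncard, by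
    rintro n ⟨H, -, rfl⟩
    exact Set.ncard_le_ncard (Set.subset_univ _)⟩
  obtain ⟨H, ⟨h1, h2, h3, h4⟩, hn⟩ := Nat.sSup_mem hne hbd
  refine ⟨H, ⟨h4, fun u v huv hnadj t ht => ?_⟩, h3⟩
  have hes : (addEdge H u v t ht).graph.edgeSet = insert s(u, v) H.graph.edgeSet := by
    simp only [addEdge, SimpleGraph.edgeSet_sup, SimpleGraph.edgeSet_edge_of_ne huv]
    rw [Set.union_comm]; rfl
  by_cases hA' : s(u, v) ∈ A
  · by_contra hcon
    have hP : P (addEdge H u v t ht) := by
      refine ⟨h1.trans le_sup_left, fun e he => ?_, ?_, hcon⟩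
      · rw [addEdge_label_ne, h2 e he]
        rintro rfl
        exact hnadj (h1 he)
      · rw [hes]; exact Set.insert_subset hA' h3
    have := le_csSup hbd ⟨_, hP, rfl⟩
    have hn' : s(u, v) ∉ H.graph.edgeSet := hnadj
    rw [hes, Set.ncard_insert_of_notMem hn', hn] at this
    omega
  · have ht0 : Fresh H0 t := fun e he => by
      rw [← h2 e he]; exact ht e (SimpleGraph.edgeSet_mono h1 he)
    obtain ⟨φ, hφ⟩ := hsat u v huv hA' t ht0
    refine ⟨φ, hφ.mono (sup_le_sup_right h1 _) fun e he => ?_⟩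
    by_cases hee : e = s(u, v)
    · rw [hee, addEdge_label_self, addEdge_label_self]
    · rw [addEdge_label_ne _ _ _ _ _ hee, addEdge_label_ne _ _ _ _ _ hee]
      apply h2
      induction e using Sym2.ind with
      | h a b =>
        rcases (addEdge_adj H0 u v t ht0).mp he with h | h
        · exact h
        · exact absurd h.1 hee

def EOGraph.pull {U : Type} (H : EOGraph V) (σ : U ≃ V) : EOGraph U where
  graph := H.graph.comap σ
  label := fun e => H.label (e.map σ)
  inj := by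
    intro e he f hf h
    have hm : ∀ g ∈ (H.graph.comap σ).edgeSet, g.map σ ∈ H.graph.edgeSet := by
      intro g hg
      induction g using Sym2.ind with
      | h x y => exact hg
    exact Sym2.map.injective σ.injective (H.inj (hm e he) (hm f hf) h)

lemma pull_host {U : Type} {G : EOGraph W} {H : EOGraph V} (σ : U ≃ V)
    (h : IsSatHost .e G H) : IsSatHost .e G (H.pull σ) := by
  refine ⟨?_, fun u v huv hn t ht => ?_⟩
  · rintro ⟨φ, h1, h2, h3⟩
    refine h.1 ⟨σ ∘ φ, σ.injective.comp h1, h2, fun e he f hf => ?_⟩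
    rw [h3 e he f hf]
    simp [EOGraph.pull, Sym2.map_map]
  · have ht' : Fresh H t := by
      intro e he
      induction e using Sym2.ind with
      | h a b =>
        have := ht s(σ.symm a, σ.symm b) (by simpa [EOGraph.pull] using he)
        simpa [EOGraph.pull] using this
    obtain ⟨φ, h1, h2, h3⟩ := h.2 (σ u) (σ v) (σ.injective.ne huv) hn t ht'
    have key : ∀ a b : V, s(σ.symm a, σ.symm b) = s(u, v) ↔ s(a, b) = s(σ u, σ v) := by
      intro a b
      simp only [Sym2.eq_iff, Equiv.symm_apply_eq]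
    have hl : ∀ e : Sym2 W, (addEdge (H.pull σ) u v t ht).label (e.map (σ.symm ∘ φ)) =
        (addEdge H (σ u) (σ v) t ht').label (e.map φ) := by
      intro e
      induction e using Sym2.ind with
      | h a b =>
        simp only [Sym2.map_mk, Function.comp]
        by_cases hab : s(φ a, φ b) = s(σ u, σ v)
        · rw [hab, (key _ _).mpr hab, addEdge_label_self, addEdge_label_self]
        · rw [addEdge_label_ne _ _ _ _ _ hab,
            addEdge_label_ne _ _ _ _ _ (fun h => hab ((key _ _).mp h))]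
          simp [EOGraph.pull]
    refine ⟨σ.symm ∘ φ, σ.symm.injective.comp h1, fun a b hab => ?_, fun e he f hf => ?_⟩
    · have := h2 a b hab
      rw [addEdge_adj] at this ⊢
      simpa [EOGraph.pull, key] using this
    · rw [hl, hl]; exact h3 e he f hf

lemma pull_ncard {U : Type} (H : EOGraph V) (σ : U ≃ V) :
    (H.pull σ).graph.edgeSet.ncard = H.graph.edgeSet.ncard := by
  rw [← Set.ncard_image_of_injective _ (Sym2.map.injective σ.injective)]
  congr 1
  ext e
  induction e using Sym2.ind with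
  | h a b =>
    constructor
    · rintro ⟨g, hg, hge⟩
      induction g using Sym2.ind with
      | h x y => rw [← hge]; exact hg
    · intro h
      exact ⟨s(σ.symm a, σ.symm b), by simpa [EOGraph.pull] using h, by simp⟩

end Pool.Agent.P.MP_775916_co
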