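import Pool.Agent.P.MP_775916_co.Pattern

namespace Pool.Agent.P.MP_775916_co

abbrev Idx (k T : ℕ) := Fin (k + 1) → Fin (T + 1)
abbrev Code (k T : ℕ) := Idx k T → Bool
abbrev FH (k T : ℕ) := Fin (k + 1) × Idx k T × Code k T
abbrev Pos (T : ℕ) := Fin (T + 1) → Fin 3

set_option synthInstance.maxSize 2048 in
structure Hub (k T : ℕ) where
  σ : Bool
  τ : Fin 3
  κ : Code k T ⊕ FH k T
  bt : Bool
  bf : Bool
  deriving DecidableEq, Fintype

inductive NV (k T : ℕ)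
  | ty (u : Fin 3 → Code k T)
  | hub (g : Hub k T)
  | z (σ : Bool) (i : Fin (k + 1))
  deriving DecidableEq, Fintype

inductive Cls (k : ℕ)
  | ty
  | hub (σ : Bool) (τ : Fin 3) (r : Option (Fin (k + 1))) (bt bf : Bool)
  | z (σ : Bool) (i : Fin (k + 1))
  deriving DecidableEq, Fintype

inductive HV (k T N : ℕ)
  | nv (x : NV k T)
  | x (σ : Bool) (c : CE k) (κ1 κ2 : Cls k) (j : Bool)
  | fix (s : Bool) (y : GV k N)
  deriving DecidableEq, Fintype

variable {k T N : ℕ}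

def role : Code k T ⊕ FH k T → Option (Fin (k + 1))
  | .inl _ => none
  | .inr f => some f.1

def NV.cls : NV k T → Cls k
  | .ty _ => .ty
  | .hub g => .hub g.σ g.τ (role g.κ) g.bt g.bf
  | .z σ i => .z σ i

def Hub.get (g : Hub k T) (s : Bool) : Bool := if s then g.bt else g.bf

def Hub.mate (g : Hub k T) (s : Bool) : Hub k T :=
  if s then { g with bt := !g.bt } else { g with bf := !g.bf }

def Hub.base (g : Hub k T) : Prop := g.bt = false ∧ g.bf = false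

def bef (i : ℕ) (c' c : Idx k T) : Prop :=
  ∃ j : Fin (k + 1), (j : ℕ) < i ∧ (∀ j' < j, c' j' = c j') ∧ c' j < c j

open Classical in
noncomputable def trunc (β : Code k T) (i : ℕ) (c : Idx k T) : Code k T :=
  fun c' => if bef i c' c then β c' else false

noncomputable def hubOf (β : Code k T) (i : Fin (k + 1)) (c : Idx k T) : FH k T :=
  (i, Function.update c i 0, trunc β i c)

def adjC : Code k T ⊕ FH k T → Code k T → Prop
  | .inl β', β => β = β'
  | .inr f, β => ∃ c, hubOf β f.1 c = f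

def posF (β : Code k T) (f : FH k T) : Pos T :=
  fun x => if β (Function.update f.2.1 f.1 x) then 2 else 0

def cut (f f' : FH k T) : Pos T :=
  fun x => if x < f'.2.1 f.1 then (if f'.2.2 (Function.update f.2.1 f.1 x) then 2 else 0) else 1

def enc (g : Hub k T) (τ : Fin 3) (β : Code k T) : Prop :=
  (g.base ∧ τ = g.τ ∧ ¬ adjC g.κ β) ∨ (¬ g.base ∧ τ = g.τ + 1)

abbrev Lab (T : ℕ) := Bool × ℕ × Pos T × ℕ

def NE : NV k T → NV k T → Lab T → Prop
  | .ty u, .hub g, l => g.base ∧ adjC g.κ (u g.τ) ∧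
      ((∃ β, g.κ = .inl β ∧ l = (g.σ, 1, fun _ => 0, (g.τ : ℕ))) ∨
        (∃ f, g.κ = .inr f ∧ l = (g.σ, 5 + (f.1 : ℕ), posF (u g.τ) f, 0)))
  | .ty _, .z σ i, l => l = (σ, 5 + (i : ℕ), fun _ => 0, 0)
  | .hub _, .z σ i, l => l = (σ, 5 + (i : ℕ), fun _ => 2, 0)
  | .z σ i, .z σ' i', l => σ = σ' ∧ (i' : ℕ) = i + 1 ∧ l = (σ, 5 + (i : ℕ), fun _ => 1, 0)
  | .hub g, .hub g', l =>
      (∃ s, g.get s = false ∧ g' = g.mate s ∧ l = (s, 1, fun _ => 0, 3)) ∨
      (∃ β, g.base ∧ g.κ = .inl β ∧ enc (g'.mate g.σ) g.τ β ∧ l = (g.σ, 3, fun _ => 0, 0)) ∨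
      (∃ f f', g.base ∧ g'.base ∧ g.σ = g'.σ ∧ g.τ = g'.τ ∧ g.κ = .inr f ∧ g'.κ = .inr f' ∧
        (f'.1 : ℕ) = f.1 + 1 ∧ l = (g.σ, 5 + (f.1 : ℕ), cut f f', 0))
  | _, _, _ => False

lemma fin3_ne (τ : Fin 3) : τ ≠ τ + 1 := by revert τ; decide

lemma fin3_ne' (τ τ' : Fin 3) (h : τ = τ' + 1) : τ' ≠ τ + 1 := by revert τ τ'; decide

lemma NE.unique {x y : NV k T} {l l' : Lab T} (h : NE x y l) (h' : NE x y l') : l = l' := by
  cases x <;> cases y <;> simp only [NE] at h h'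
  case ty.hub u g =>
    obtain ⟨-, -, ⟨β, h1, rfl⟩ | ⟨f, h1, rfl⟩⟩ := h <;>
      obtain ⟨-, -, ⟨β', h1', rfl⟩ | ⟨f', h1', rfl⟩⟩ := h' <;> simp_all
  case ty.z => rw [h, h']
  case hub.z => rw [h, h']
  case z.z => rw [h.2.2, h'.2.2]
  case hub.hub g g' =>
    obtain ⟨σ, τ, κ, bt, bf⟩ := g
    have := fin3_ne τ
    rcases h with ⟨s, h1, rfl, rfl⟩ | ⟨β, h1, h2, h3, rfl⟩ | ⟨f, f', h1, h2, h3, h4, h5, h6, h7, rfl⟩ <;>
      rcases h' with ⟨s', h1', h2', rfl⟩ | ⟨β', h1', h2', h3', rfl⟩ |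
        ⟨f1, f1', h1', h2', h3', h4', h5', h6', h7', rfl⟩
    · cases s <;> cases s' <;> simp_all [Hub.mate, Hub.get]
    · cases s <;> cases σ <;> simp_all [Hub.mate, Hub.get, Hub.base, enc, adjC]
    · cases s <;> simp_all [Hub.mate, Hub.get, Hub.base]
    · cases s' <;> cases σ <;> simp_all [Hub.mate, Hub.get, Hub.base, enc, adjC]
    · rfl
    · simp_all
    · cases s' <;> simp_all [Hub.mate, Hub.get, Hub.base]
    · simp_all
    · simp_all

lemma NE.asymm {x y : NV k T} {l l' : Lab T} (h : NE x y l) (h' : NE y x l') : False := by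
  cases x <;> cases y <;> simp only [NE] at h h'
  case z.z => omega
  case hub.hub g g' =>
    obtain ⟨σ, τ, κ, bt, bf⟩ := g
    obtain ⟨σ', τ', κ', bt', bf'⟩ := g'
    have := fin3_ne τ
    have := fin3_ne τ'
    have := fin3_ne' τ τ'
    rcases h with ⟨s, h1, h2, rfl⟩ | ⟨β, h1, h2, h3, rfl⟩ | ⟨f, f', h1, h2, h3, h4, h5, h6, h7, rfl⟩ <;>
      rcases h' with ⟨s', h1', h2', rfl⟩ | ⟨β', h1', h2', h3', rfl⟩ |
        ⟨f1, f1', h1', h2', h3', h4', h5', h6', h7', rfl⟩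
    · cases s <;> cases s' <;> simp_all [Hub.mate, Hub.get]
    · cases s <;> simp_all [Hub.mate, Hub.get, Hub.base]
    · cases s <;> simp_all [Hub.mate, Hub.get, Hub.base]
    · cases s' <;> simp_all [Hub.mate, Hub.get, Hub.base]
    · have a : τ = τ' + 1 := by
        cases σ <;> simp [Hub.mate, Hub.base, enc, h1'.1, h1'.2] at h3 h1' <;> simp_all
      have b : τ' = τ + 1 := by
        cases σ' <;> simp [Hub.mate, Hub.base, enc, h1.1, h1.2] at h3' h1 <;> simp_all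
      exact fin3_ne' _ _ a b
    · simp_all
    · cases s' <;> simp_all [Hub.mate, Hub.get, Hub.base]
    · simp_all
    · rw [h5] at h6'
      rw [h6] at h5'
      obtain rfl := Sum.inr.inj h6'
      obtain rfl := Sum.inr.inj h5'
      omega

lemma NE.cls_ne {x y : NV k T} {l : Lab T} (h : NE x y l) : x.cls ≠ y.cls := by
  cases x <;> cases y <;> simp only [NE] at h <;> simp only [NV.cls, ne_eq, reduceCtorEq,
    not_false_eq_true, Cls.z.injEq, Cls.hub.injEq]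
  case z.z => rintro ⟨-, rfl⟩; omega
  case hub.hub g g' =>
    obtain ⟨σ, τ, κ, bt, bf⟩ := g
    obtain ⟨σ', τ', κ', bt', bf'⟩ := g'
    have := fin3_ne τ'
    rcases h with ⟨s, h1, h2, rfl⟩ | ⟨β, h1, h2, h3, rfl⟩ | ⟨f, f', h1, h2, h3, h4, h5, h6, h7, rfl⟩
    · cases s <;> simp_all [Hub.mate, Hub.get]
    · rintro ⟨rfl, rfl, -, rfl, rfl⟩
      cases σ <;> simp_all [Hub.mate, Hub.base, enc]
    · rintro ⟨-, -, h, -⟩
      simp_all [role]

lemma NE.zone_pos {x y : NV k T} {l : Lab T} (h : NE x y l) : 1 ≤ l.2.1 := by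
  cases x <;> cases y <;> simp only [NE] at h
  case ty.hub u g => obtain ⟨-, -, ⟨β, h1, rfl⟩ | ⟨f, h1, rfl⟩⟩ := h <;> simp <;> omega
  case ty.z => rw [h]; simp; omega
  case hub.z => rw [h]; simp; omega
  case z.z => rw [h.2.2]; simp; omega
  case hub.hub g g' =>
    rcases h with ⟨s, h1, h2, rfl⟩ | ⟨β, h1, h2, h3, rfl⟩ |
      ⟨f, f', h1, h2, h3, h4, h5, h6, h7, rfl⟩ <;> simp <;> omega

abbrev Lam (T : ℕ) := ℤ ×ₗ (Lex (Pos T) ×ₗ ℕ)

def mkL (z : ℤ) (π : Pos T) (n : ℕ) : Lam T := toLex (z, toLex (toLex π, n))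

def Lam.zone (l : Lam T) : ℤ := (ofLex l).1

lemma mkL_lt {z z' : ℤ} {π π' : Pos T} {n n' : ℕ} : mkL z π n < mkL z' π' n' ↔
    z < z' ∨ (z = z' ∧ (toLex π < toLex π' ∨ (π = π' ∧ n < n'))) := by
  simp [mkL, Prod.Lex.toLex_lt_toLex]

lemma Lam.zone_le {l l' : Lam T} (h : l ≤ l') : l.zone ≤ l'.zone := by
  rcases Prod.Lex.le_iff.mp h with h | h
  · exact h.le
  · exact h.1.le

lemma Lam.lt_of_zone {l l' : Lam T} (h : l.zone < l'.zone) : l < l' :=
  Prod.Lex.lt_iff.mpr (Or.inl h)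

def toLam (k : ℕ) (l : Lab T) : Lam T := mkL (sg l.1 * (k + 13 + l.2.1)) l.2.2.1 l.2.2.2

noncomputable def std (T : ℕ) (s : Bool) (ε : GE k N) : Lam T :=
  mkL (sg s * (k + 13) + ε.zone) (fun _ => ε.sub) ε.idx

def GE.side : GE k N → Option Bool
  | .root s => some s
  | .core s _ => some s
  | .gx s _ => some s
  | .gs s _ _ _ => some s
  | .w _ => none

def HE : HV k T N → HV k T N → Lam T → Prop
  | .nv x, .nv y, l => ∃ l', NE x y l' ∧ l = toLam k l'
  | .nv h, .x σ c κ1 κ2 j, l => κ1 ≠ κ2 ∧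
      ∃ e : Bool, h.cls = (if e then κ2 else κ1) ∧ l = std T σ (.gs σ c e j : GE k N)
  | .x σ c κ1 κ2 j, .x σ' c' κ1' κ2' j', l => σ = σ' ∧ c = c' ∧ κ1 = κ1' ∧ κ2 = κ2' ∧
      j = false ∧ j' = true ∧ l = std T σ (.gx σ c : GE k N)
  | .fix s y, .fix s' y', l => s = s' ∧
      ∃ ε : GE k N, ε.src = y ∧ ε.tgt = y' ∧ ε.side ≠ some s ∧ l = std T s ε
  | _, _, _ => False

lemma HE.unique {x y : HV k T N} {l l' : Lam T} (h : HE x y l) (h' : HE x y l') : l = l' := by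
  cases x <;> cases y <;> simp only [HE] at h h'
  case nv.nv =>
    obtain ⟨a, h, rfl⟩ := h
    obtain ⟨a', h', rfl⟩ := h'
    rw [h.unique h']
  case nv.x =>
    obtain ⟨h0, e, h, rfl⟩ := h
    obtain ⟨-, e', h', rfl⟩ := h'
    cases e <;> cases e' <;> simp_all
  case x.x => rw [h.2.2.2.2.2.2, h'.2.2.2.2.2.2]
  case fix.fix =>
    obtain ⟨-, ε, h1, h2, -, rfl⟩ := h
    obtain ⟨-, ε', h1', h2', -, rfl⟩ := h'
    rw [GE.ed_inj (show ε.ed = ε'.ed by simp [GE.ed, h1, h2, h1', h2'])]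

lemma HE.asymm {x y : HV k T N} {l l' : Lam T} (h : HE x y l) (h' : HE y x l') : False := by
  cases x <;> cases y <;> simp only [HE] at h h'
  case nv.nv =>
    obtain ⟨a, h, rfl⟩ := h
    obtain ⟨a', h', rfl⟩ := h'
    exact h.asymm h'
  case x.x => simp_all
  case fix.fix =>
    obtain ⟨-, ε, h1, h2, -, rfl⟩ := h
    obtain ⟨-, ε', h1', h2', -, rfl⟩ := h'
    have : ε = ε' := GE.ed_inj (show ε.ed = ε'.ed by simp [GE.ed, h1, h2, h1', h2'])
    subst this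
    exact ε.src_ne_tgt (h1.trans h2'.symm)

def HS (x y : HV k T N) (l : Lam T) : Prop := HE x y l ∨ HE y x l

lemma HS.symm {x y : HV k T N} {l : Lam T} (h : HS x y l) : HS y x l := Or.symm h

open Classical in
noncomputable def hostW (e : Sym2 (HV k T N)) : Lam T :=
  if h : ∃ l x y, e = s(x, y) ∧ HE x y l then h.choose else mkL 0 (fun _ => 0) 0

lemma hostW_eq {x y : HV k T N} {l : Lam T} (h : HS x y l) : hostW s(x, y) = l := by
  have key : ∀ x y : HV k T N, HE x y l → hostW s(x, y) = l := by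
    intro x y h
    have h0 : ∃ l x' y', s(x, y) = s(x', y') ∧ HE x' y' l := ⟨l, x, y, rfl, h⟩
    rw [hostW, dif_pos h0]
    obtain ⟨x', y', h1, h2⟩ := h0.choose_spec
    rcases Sym2.eq_iff.mp h1 with ⟨rfl, rfl⟩ | ⟨rfl, rfl⟩
    · exact h2.unique h
    · exact (h.asymm h2).elim
  rcases h with h | h
  · exact key x y h
  · rw [Sym2.eq_swap]; exact key y x h

noncomputable def host (k T N : ℕ) : EOGraph (HV k T N) where
  graph :=
    { Adj := fun x y => ∃ l, HS x y l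
      symm := ⟨fun _ _ ⟨l, h⟩ => ⟨l, h.symm⟩⟩
      loopless := ⟨fun _ ⟨_, h⟩ => h.elim (fun h => h.asymm h) (fun h => h.asymm h)⟩ }
  label := (exists_refine hostW).choose
  inj := (exists_refine hostW).choose_spec.1.injOn

lemma host_adj {x y : HV k T N} : (host k T N).graph.Adj x y ↔ ∃ l, HS x y l := Iff.rfl

lemma host_lt {x y x' y' : HV k T N} {l l' : Lam T} (h : HS x y l) (h' : HS x' y' l')
    (hlt : l < l') : (host k T N).label s(x, y) < (host k T N).label s(x', y') := by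
  apply (exists_refine hostW).choose_spec.2
  rwa [hostW_eq h, hostW_eq h']

lemma host_le {x y x' y' : HV k T N} {l l' : Lam T} (h : HS x y l) (h' : HS x' y' l')
    (hlt : (host k T N).label s(x, y) < (host k T N).label s(x', y')) : l ≤ l' := by
  by_contra hcon
  exact absurd (host_lt h' h (not_le.mp hcon)) (not_lt.mpr hlt.le)

end Pool.Agent.P.MP_775916_co
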