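import Pool.Agent.P.MP_775916_co.Generic

namespace Pool.Agent.P.MP_775916_co

inductive Core (k : ℕ)
  | a
  | b
  | p
  | q
  | v (i : Fin (k + 1))
  deriving DecidableEq, Fintype

inductive CE (k : ℕ)
  | ap
  | qb
  | pq
  | av (i : Fin (k + 1))
  | bv (i : Fin (k + 1))
  | vv (i : Fin k)
  deriving DecidableEq, Fintype

variable {k N : ℕ}

def CE.src : CE k → Core k
  | .ap => .a
  | .qb => .q
  | .pq => .p
  | .av _ => .a
  | .bv _ => .b
  | .vv i => .v i.castSucc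

def CE.tgt : CE k → Core k
  | .ap => .p
  | .qb => .b
  | .pq => .q
  | .av i => .v i
  | .bv i => .v i
  | .vv i => .v i.succ

def CE.en (c : CE k) (e : Bool) : Core k := if e then c.tgt else c.src

def CE.zone : CE k → ℕ
  | .ap => 1
  | .qb => 1
  | .pq => 3
  | .av i => 5 + i
  | .bv i => 5 + i
  | .vv i => 5 + i

def CE.sub : CE k → Fin 3
  | .ap => 0
  | .qb => 1
  | .pq => 0
  | .av _ => 0
  | .bv _ => 2
  | .vv _ => 1

lemma CE.src_ne_tgt (c : CE k) : c.src ≠ c.tgt := by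
  cases c <;> simp [CE.src, CE.tgt, Fin.ext_iff]

lemma CE.zone_le (c : CE k) : c.zone ≤ k + 5 := by
  cases c <;> simp only [CE.zone] <;> omega

lemma CE.zone_pos (c : CE k) : 1 ≤ c.zone := by
  cases c <;> simp only [CE.zone] <;> omega

lemma CE.ed_inj {c c' : CE k} (h : s(c.src, c.tgt) = s(c'.src, c'.tgt)) : c = c' := by
  cases c <;> cases c' <;> simp [CE.src, CE.tgt, Fin.ext_iff] at h ⊢ <;> omega

lemma CE.ed_ne_root (c : CE k) : s(c.src, c.tgt) ≠ s(Core.a, Core.b) := by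
  cases c <;> simp [CE.src, CE.tgt]

inductive GV (k N : ℕ)
  | core (s : Bool) (c : Core k)
  | gad (s : Bool) (c : CE k) (j : Bool)
  | w (i : Fin N)
  deriving DecidableEq, Fintype

inductive GE (k N : ℕ)
  | root (s : Bool)
  | core (s : Bool) (c : CE k)
  | gx (s : Bool) (c : CE k)
  | gs (s : Bool) (c : CE k) (e j : Bool)
  | w (x : {z : Fin N × Fin N // z.1 < z.2})
  deriving DecidableEq, Fintype

def GE.src : GE k N → GV k N
  | .root s => .core s .a
  | .core s c => .core s c.src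
  | .gx s c => .gad s c false
  | .gs s c e _ => .core s (c.en e)
  | .w x => .w x.1.1

def GE.tgt : GE k N → GV k N
  | .root s => .core s .b
  | .core s c => .core s c.tgt
  | .gx s c => .gad s c true
  | .gs s c _ j => .gad s c j
  | .w x => .w x.1.2

def GE.ed (ε : GE k N) : Sym2 (GV k N) := s(ε.src, ε.tgt)

lemma GE.src_ne_tgt (ε : GE k N) : ε.src ≠ ε.tgt := by
  cases ε with
  | core s c => simpa [GE.src, GE.tgt] using c.src_ne_tgt
  | w x => simpa [GE.src, GE.tgt] using x.2.ne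
  | _ => simp [GE.src, GE.tgt]

lemma CE.en_inj (c : CE k) {e e' : Bool} (h : c.en e = c.en e') : e = e' := by
  have := c.src_ne_tgt
  cases e <;> cases e' <;> simp_all [CE.en]

lemma GE.ed_inj : Function.Injective (GE.ed : GE k N → _) := by
  intro ε ε' h
  cases ε <;> cases ε' <;> simp [GE.ed, GE.src, GE.tgt] at h ⊢
  case root.core s s' c =>
    apply c.ed_ne_root
    rcases h with ⟨⟨-, h1⟩, -, h2⟩ | ⟨⟨-, h1⟩, -, h2⟩ <;> simp [← h1, ← h2]
  case core.root s c s' =>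
    apply c.ed_ne_root
    rcases h with ⟨⟨-, h1⟩, -, h2⟩ | ⟨⟨-, h1⟩, -, h2⟩ <;> simp [h1, h2]
  case core.core s c s' c' =>
    rcases h with ⟨⟨h0, h1⟩, -, h2⟩ | ⟨⟨h0, h1⟩, -, h2⟩
    · exact ⟨h0, CE.ed_inj (by simp [h1, h2])⟩
    · exact ⟨h0, CE.ed_inj (by simp [h1, h2])⟩
  case gs.gs s c e j s' c' e' j' =>
    obtain ⟨⟨h0, h1⟩, -, rfl, h2⟩ := h
    exact ⟨h0, rfl, c.en_inj h1, h2⟩
  case w.w x y =>
    rcases h with ⟨h1, h2⟩ | ⟨h1, h2⟩
    · exact Subtype.ext (Prod.ext h1 h2)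
    · have a := x.2
      have b := y.2
      rw [h1, h2] at a
      exact absurd (a.trans b) (lt_irrefl _)
  all_goals tauto

def sg (s : Bool) : ℤ := if s then 1 else -1

def gr (e j : Bool) : ℕ := if e then (if j then 1 else 2) else (if j then 3 else 0)

def zW (i j : ℕ) : ℤ := if i / 2 = j / 2 then 2 * (min (i / 2) 4 : ℕ) - 4 else 4

def sW (i j : ℕ) : Fin 3 := if i / 2 = j / 2 then 0 else if i % 2 = j % 2 then 1 else 2

def GE.zone : GE k N → ℤ
  | .root s => -sg s * (k + 12)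
  | .core s c => sg s * c.zone
  | .gx s _ => sg s * (k + 6)
  | .gs s _ e j => sg s * (k + 7 + gr e j)
  | .w x => zW x.1.1 x.1.2

def GE.sub : GE k N → Fin 3
  | .core _ c => c.sub
  | .w x => sW x.1.1 x.1.2
  | _ => 0

noncomputable def GE.idx (ε : GE k N) : ℕ := Fintype.equivFin (GE k N) ε

lemma GE.idx_inj : Function.Injective (GE.idx : GE k N → ℕ) :=
  fun _ _ h => (Fintype.equivFin (GE k N)).injective (Fin.ext h)

noncomputable def GE.wt (ε : GE k N) : ℤ ×ₗ (Fin 3 ×ₗ ℕ) := toLex (ε.zone, toLex (ε.sub, ε.idx))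

lemma GE.wt_inj : Function.Injective (GE.wt : GE k N → _) :=
  fun _ _ h => GE.idx_inj (congrArg (fun z => (ofLex (ofLex z).2).2) h)

lemma GE.wt_lt {ε ε' : GE k N} : ε.wt < ε'.wt ↔ ε.zone < ε'.zone ∨
    (ε.zone = ε'.zone ∧ (ε.sub < ε'.sub ∨ (ε.sub = ε'.sub ∧ ε.idx < ε'.idx))) := by
  simp [GE.wt, Prod.Lex.toLex_lt_toLex]

noncomputable def patW : Sym2 (GV k N) → ℤ ×ₗ (Fin 3 ×ₗ ℕ) :=
  Function.extend GE.ed GE.wt (fun _ => toLex (0, toLex (0, 0)))

noncomputable def pat (k N : ℕ) : EOGraph (GV k N) where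
  graph := SimpleGraph.fromEdgeSet (Set.range GE.ed)
  label := (exists_refine patW).choose
  inj := (exists_refine patW).choose_spec.1.injOn

lemma pat_adj {x y : GV k N} : (pat k N).graph.Adj x y ↔ ∃ ε : GE k N, ε.ed = s(x, y) := by
  simp only [pat, SimpleGraph.fromEdgeSet_adj, Set.mem_range]
  refine ⟨fun h => h.1, fun h => ⟨h, ?_⟩⟩
  obtain ⟨ε, h⟩ := h
  rintro rfl
  apply ε.src_ne_tgt
  simp only [GE.ed, Sym2.eq_iff] at h
  rcases h with ⟨h1, h2⟩ | ⟨h1, h2⟩ <;> rw [h1, h2]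

lemma pat_mem {e : Sym2 (GV k N)} : e ∈ (pat k N).graph.edgeSet ↔ ∃ ε : GE k N, ε.ed = e := by
  induction e using Sym2.ind with
  | h x y => exact pat_adj

lemma pat_adjE (ε : GE k N) : (pat k N).graph.Adj ε.src ε.tgt := pat_adj.mpr ⟨ε, rfl⟩

lemma pat_lt {ε ε' : GE k N} : (pat k N).label ε.ed < (pat k N).label ε'.ed ↔ ε.wt < ε'.wt := by
  have key : ∀ ε ε' : GE k N, ε.wt < ε'.wt → (pat k N).label ε.ed < (pat k N).label ε'.ed := by
    intro ε ε' h
    apply (exists_refine patW).choose_spec.2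
    simpa [patW, GE.ed_inj.extend_apply] using h
  refine ⟨fun h => ?_, key _ _⟩
  rcases lt_trichotomy ε.wt ε'.wt with h1 | h1 | h1
  · exact h1
  · rw [GE.wt_inj h1] at h; exact absurd h (lt_irrefl _)
  · exact absurd (key _ _ h1) (not_lt.mpr h.le)

lemma pat_lt' {ε ε' : GE k N} {x y x' y' : GV k N} (h1 : ε.ed = s(x, y)) (h2 : ε'.ed = s(x', y'))
    (h : ε.zone < ε'.zone ∨ (ε.zone = ε'.zone ∧ ε.sub < ε'.sub)) :
    (pat k N).label s(x, y) < (pat k N).label s(x', y') := by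
  rw [← h1, ← h2, pat_lt, GE.wt_lt]
  tauto

lemma exists_wE (i j : Fin N) (h : i ≠ j) : ∃ ε : GE k N, ε.ed = s(.w i, .w j) ∧
    ε.zone = zW i j ∧ ε.sub = sW i j := by
  rcases lt_or_gt_of_ne h with h | h
  · exact ⟨.w ⟨(i, j), h⟩, rfl, rfl, rfl⟩
  · refine ⟨.w ⟨(j, i), h⟩, Sym2.eq_swap, ?_, ?_⟩
    · simp only [GE.zone, zW]; split_ifs <;> omega
    · simp only [GE.sub, sW]; split_ifs <;> first | rfl | omega

lemma adjW {i j : Fin N} (h : i ≠ j) : (pat k N).graph.Adj (.w i) (.w j) := by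
  obtain ⟨ε, h, -⟩ := exists_wE (k := k) i j h
  exact pat_adj.mpr ⟨ε, h⟩

lemma ltW {i j i' j' : Fin N} (h : i ≠ j) (h' : i' ≠ j')
    (hlt : zW i j < zW i' j' ∨ (zW i j = zW i' j' ∧ sW i j < sW i' j')) :
    (pat k N).label s(.w i, .w j) < (pat k N).label s(.w i', .w j') := by
  obtain ⟨ε, h1, h2, h3⟩ := exists_wE (k := k) i j h
  obtain ⟨ε', h1', h2', h3'⟩ := exists_wE (k := k) i' j' h'
  exact pat_lt' h1 h1' (by rw [h2, h3, h2', h3']; exact hlt)

lemma rev_of {x y v w : GV k N} (e1 e2 e3 e4 : GE k N) (h1 : e1.ed = s(x, v))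
    (h2 : e2.ed = s(x, w)) (h3 : e3.ed = s(y, v)) (h4 : e4.ed = s(y, w))
    (h : (e1.zone < e2.zone ∧ e4.zone < e3.zone) ∨ (e2.zone < e1.zone ∧ e3.zone < e4.zone)) :
    Rev (pat k N).graph (pat k N).label x y := by
  rcases h with h | h
  · exact ⟨v, w, pat_adj.mpr ⟨_, h1⟩, pat_adj.mpr ⟨_, h2⟩, pat_adj.mpr ⟨_, h3⟩,
      pat_adj.mpr ⟨_, h4⟩, pat_lt' h1 h2 (Or.inl h.1), pat_lt' h4 h3 (Or.inl h.2)⟩
  · exact ⟨w, v, pat_adj.mpr ⟨_, h2⟩, pat_adj.mpr ⟨_, h1⟩, pat_adj.mpr ⟨_, h4⟩,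
      pat_adj.mpr ⟨_, h3⟩, pat_lt' h2 h1 (Or.inl h.1), pat_lt' h3 h4 (Or.inl h.2)⟩

lemma pat_hardE {M : ℕ} (hM : 2 ≤ M) (ε : GE k (2 * M)) :
    Compat (pat k (2 * M)).graph (pat k (2 * M)).label k ε.src ε.tgt := by
  cases ε with
  | root s =>
    refine Or.inr (Or.inl ⟨fun i => .core s (.v ⟨min i k, by omega⟩), fun i hi => ?_,
      fun i hi => ?_⟩)
    · exact ⟨pat_adjE (.core s (.av _)), pat_adjE (.core s (.bv _))⟩
    · have e1 : (⟨min i k, by omega⟩ : Fin (k + 1)) = (⟨i, hi⟩ : Fin k).castSucc := by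
        ext; simp; omega
      have e2 : (⟨min (i + 1) k, by omega⟩ : Fin (k + 1)) = (⟨i, hi⟩ : Fin k).succ := by
        ext; simp; omega
      simp only [e1, e2]
      refine ⟨pat_adjE (.core s (.vv _)), ?_, ?_⟩
      · exact pat_lt' (ε := .core s (.av _)) (ε' := .core s (.vv _)) rfl rfl
          (Or.inr ⟨by simp [GE.zone, CE.zone], by simp [GE.sub, CE.sub]⟩)
      · exact pat_lt' (ε := .core s (.vv _)) (ε' := .core s (.bv _)) rfl rfl
          (Or.inr ⟨by simp [GE.zone, CE.zone], by simp [GE.sub, CE.sub]⟩)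
  | core s c =>
    refine Or.inl (rev_of (.gs s c false false) (.gs s c false true) (.gs s c true false)
      (.gs s c true true) rfl rfl rfl rfl ?_)
    cases s <;> simp [GE.zone, sg, gr]
    omega
  | gx s c =>
    refine Or.inl (rev_of (.gs s c false false) (.gs s c true false) (.gs s c false true)
      (.gs s c true true) Sym2.eq_swap Sym2.eq_swap Sym2.eq_swap Sym2.eq_swap ?_)
    cases s <;> simp [GE.zone, sg, gr]
    omega
  | gs s c e j =>
    have hz := c.zone_le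
    refine Or.inl (rev_of (v := .core s (c.en (!e))) (w := .gad s c (!j)) (.core s c)
      (.gs s c e (!j)) (.gs s c (!e) j) (.gx s c) ?_ rfl Sym2.eq_swap ?_ ?_)
    · cases e <;> simp [GE.ed, GE.src, GE.tgt, CE.en]
    · cases j <;> simp [GE.ed, GE.src, GE.tgt]
    · cases s <;> cases e <;> cases j <;> simp [GE.zone, sg, gr] <;> omega
  | w x =>
    obtain ⟨⟨i, j⟩, hij⟩ := x
    have hij' : (i : ℕ) < j := hij
    have hi := i.2
    have hj := j.2
    left
    by_cases h : (i : ℕ) / 2 = j / 2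
    · let r : ℕ := if (i : ℕ) < 2 then 2 else 0
      have hr : r = 2 ∧ (i : ℕ) < 2 ∨ r = 0 ∧ 2 ≤ (i : ℕ) := by
        simp only [r]; split_ifs <;> omega
      clear_value r
      have n1 : i ≠ ⟨r, by omega⟩ := by simp [Fin.ext_iff]; omega
      have n2 : i ≠ ⟨r + 1, by omega⟩ := by simp [Fin.ext_iff]; omega
      have n3 : j ≠ ⟨r, by omega⟩ := by simp [Fin.ext_iff]; omega
      have n4 : j ≠ ⟨r + 1, by omega⟩ := by simp [Fin.ext_iff]; omega
      refine ⟨_, _, adjW n1, adjW n2, adjW n3, adjW n4, ltW n1 n2 ?_, ltW n4 n3 ?_⟩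
      · simp only [zW, sW]; split_ifs <;> first | omega | simp
      · simp only [zW, sW]; split_ifs <;> first | omega | simp
    · let f : ℕ → ℕ := fun n => if n % 2 = 0 then n + 1 else n - 1
      have hf : ∀ n, f n / 2 = n / 2 ∧ f n ≠ n := by
        intro n; simp only [f]; split_ifs <;> omega
      clear_value f
      have a := hf i
      have b := hf j
      have n1 : i ≠ ⟨f i, by omega⟩ := by simp [Fin.ext_iff]; omega
      have n2 : i ≠ ⟨f j, by omega⟩ := by simp [Fin.ext_iff]; omega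
      have n3 : j ≠ ⟨f i, by omega⟩ := by simp [Fin.ext_iff]; omega
      have n4 : j ≠ ⟨f j, by omega⟩ := by simp [Fin.ext_iff]; omega
      refine ⟨_, _, adjW n1, adjW n2, adjW n3, adjW n4, ltW n1 n2 ?_, ltW n4 n3 ?_⟩
      · simp only [zW, sW]; split_ifs <;> first | omega | (simp; omega)
      · simp only [zW, sW]; split_ifs <;> first | omega | (simp; omega)

lemma pat_hard {M : ℕ} (hM : 2 ≤ M) (x y : GV k (2 * M)) (h : (pat k (2 * M)).graph.Adj x y) :
    Compat (pat k (2 * M)).graph (pat k (2 * M)).label k x y := by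
  obtain ⟨ε, h⟩ := pat_adj.mp h
  have := pat_hardE hM ε
  rcases Sym2.eq_iff.mp h with ⟨rfl, rfl⟩ | ⟨rfl, rfl⟩
  · exact this
  · exact this.symm

end Pool.Agent.P.MP_775916_co
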