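import Pool.Agent.P.MP_775916_co.Embed

namespace Pool.Agent.P.MP_775916_co

variable {k T N : ℕ}

inductive Spec (k N : ℕ)
  | z (σ : Bool) (i : Fin (k + 1))
  | x (σ : Bool) (c : CE k) (κ1 κ2 : Cls k) (j : Bool)
  | fix (s : Bool) (y : GV k N)
  deriving Fintype

def Spec.toH (T : ℕ) : Spec k N → HV k T N
  | .z σ i => .nv (.z σ i)
  | .x σ c κ1 κ2 j => .x σ c κ1 κ2 j
  | .fix s y => .fix s y

abbrev Slot (k T N : ℕ) :=
  (Bool × Fin 3 × Option (Fin (k + 1) × (Fin k → Fin (T + 1)))) ⊕ Spec k N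

noncomputable def slot (u : Fin 3 → Code k T) : Slot k T N → HV k T N
  | .inl (σ, τ, none) => .nv (.hub ⟨σ, τ, .inl (u τ), false, false⟩)
  | .inl (σ, τ, some (i, c)) =>
      .nv (.hub ⟨σ, τ, .inr (hubOf (u τ) i (Fin.insertNth i 0 c)), false, false⟩)
  | .inr y => y.toH T

def oth : Hub k T ⊕ Spec k N → HV k T N
  | .inl g => .nv (.hub g)
  | .inr y => y.toH T

noncomputable def cover : ((Fin 3 → Code k T) × Slot k T N) ⊕
    ((Hub k T ⊕ Spec k N) × (Hub k T ⊕ Spec k N)) → Sym2 (HV k T N)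
  | .inl (u, y) => s(.nv (.ty u), slot u y)
  | .inr (x, y) => s(oth x, oth y)

lemma hubOf_update (β : Code k T) (i : Fin (k + 1)) (c : Idx k T) :
    hubOf β i (Function.update c i 0) = hubOf β i c := by
  simp only [hubOf, Function.update_idem, Prod.mk.injEq, true_and]
  funext c'
  have : bef i c' (Function.update c i 0) ↔ bef i c' c := by
    refine exists_congr fun j => and_congr_right fun hj => ?_
    have hj' : j < i := hj
    rw [Function.update_of_ne hj'.ne]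
    refine and_congr_left fun _ => forall_congr' fun j' => forall_congr' fun h => ?_
    rw [Function.update_of_ne (h.trans hj').ne]
  unfold trunc
  by_cases h : bef i c' c
  · rw [if_pos h, if_pos (this.mpr h)]
  · rw [if_neg h, if_neg (fun h' => h (this.mp h'))]

lemma exists_slot (u : Fin 3 → Code k T) (g : Hub k T) (h : g.base ∧ adjC g.κ (u g.τ)) :
    ∃ y : Slot k T N, slot u y = .nv (.hub g) := by
  obtain ⟨σ, τ, κ, bt, bf⟩ := g
  obtain ⟨⟨rfl, rfl⟩, h⟩ := h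
  rcases κ with β | f
  · obtain rfl : u τ = β := h
    exact ⟨.inl (σ, τ, none), rfl⟩
  · obtain ⟨c, h⟩ := h
    refine ⟨.inl (σ, τ, some (f.1, Fin.removeNth f.1 c)), ?_⟩
    simp only [slot, Fin.insertNth_removeNth, hubOf_update]
    rw [h]

lemma hv_cases (x : HV k T N) : (∃ u, x = .nv (.ty u)) ∨ (∃ g, x = .nv (.hub g)) ∨
    ∃ y : Spec k N, x = y.toH T := by
  rcases x with (u | g | ⟨σ, i⟩) | ⟨σ, c, κ1, κ2, j⟩ | ⟨s, y⟩
  · exact Or.inl ⟨u, rfl⟩
  · exact Or.inr (Or.inl ⟨g, rfl⟩)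
  · exact Or.inr (Or.inr ⟨.z σ i, rfl⟩)
  · exact Or.inr (Or.inr ⟨.x σ c κ1 κ2 j, rfl⟩)
  · exact Or.inr (Or.inr ⟨.fix s y, rfl⟩)

lemma host_sub : (host k T N).graph.edgeSet ⊆ Set.range cover := by
  have key : ∀ (u : Fin 3 → Code k T) (y : HV k T N), (host k T N).graph.Adj (.nv (.ty u)) y →
      s(.nv (.ty u), y) ∈ Set.range (cover (k := k) (T := T) (N := N)) := by
    intro u y h
    rcases hv_cases y with ⟨u', rfl⟩ | ⟨g, rfl⟩ | ⟨y, rfl⟩
    · obtain ⟨l, h⟩ := h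
      simp [HS, HE, NE] at h
    · obtain ⟨l, h⟩ := h
      simp only [HS, HE, NE, false_and, exists_false, or_false] at h
      obtain ⟨l', ⟨h1, h2, -⟩, -⟩ := h
      obtain ⟨y, hy⟩ := exists_slot (N := N) u g ⟨h1, h2⟩
      exact ⟨.inl (u, y), by simp only [cover, hy]⟩
    · exact ⟨.inl (u, .inr y), rfl⟩
  intro e he
  induction e using Sym2.ind with
  | h x y =>
    rcases hv_cases x with ⟨u, rfl⟩ | hx
    · exact key u y he
    rcases hv_cases y with ⟨u, rfl⟩ | hy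
    · rw [Sym2.eq_swap]; exact key u x (SimpleGraph.Adj.symm he)
    rcases hx with ⟨g, rfl⟩ | ⟨x, rfl⟩ <;> rcases hy with ⟨g', rfl⟩ | ⟨y, rfl⟩
    · exact ⟨.inr (.inl g, .inl g'), rfl⟩
    · exact ⟨.inr (.inl g, .inr y), rfl⟩
    · exact ⟨.inr (.inr x, .inl g'), rfl⟩
    · exact ⟨.inr (.inr x, .inr y), rfl⟩

lemma host_sat (x y : HV k T N) (hxy : x ≠ y) (h : s(x, y) ∉ Set.range cover) (t : ℝ)
    (ht : Fresh (host k T N) t) : ∃ φ, IsCopy (pat k N) (addEdge (host k T N) x y t ht) φ := by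
  have key : ∀ (u : Fin 3 → Code k T) (w : HV k T N), s(.nv (.ty u), w) = s(x, y) →
      ∃ φ, IsCopy (pat k N) (addEdge (host k T N) x y t ht) φ := by
    intro u w hw
    rw [← hw] at h
    rcases hv_cases w with ⟨u', rfl⟩ | ⟨g, rfl⟩ | ⟨w, rfl⟩
    · refine embed_types' u u' ?_ x y hw t ht
      rintro rfl
      rcases Sym2.eq_iff.mp hw with ⟨h1, h2⟩ | ⟨h1, h2⟩
      · exact hxy (h1.symm.trans h2)
      · exact hxy (h2.symm.trans h1)
    · refine embed_hub u g (fun hg => h ?_) x y hw t ht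
      obtain ⟨y, hy⟩ := exists_slot (N := N) u g hg
      exact ⟨.inl (u, y), by simp only [cover, hy]⟩
    · exact absurd ⟨.inl (u, .inr w), rfl⟩ h
  rcases hv_cases x with ⟨u, rfl⟩ | hx
  · exact key u y rfl
  rcases hv_cases y with ⟨u, rfl⟩ | hy
  · exact key u x Sym2.eq_swap
  exfalso
  apply h
  rcases hx with ⟨g, rfl⟩ | ⟨x, rfl⟩ <;> rcases hy with ⟨g', rfl⟩ | ⟨y, rfl⟩
  · exact ⟨.inr (.inl g, .inl g'), rfl⟩
  · exact ⟨.inr (.inl g, .inr y), rfl⟩
  · exact ⟨.inr (.inr x, .inl g'), rfl⟩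
  · exact ⟨.inr (.inr x, .inr y), rfl⟩

def hubEquiv : Hub k T ≃ Bool × Fin 3 × (Code k T ⊕ FH k T) × Bool × Bool where
  toFun g := (g.σ, g.τ, g.κ, g.bt, g.bf)
  invFun x := ⟨x.1, x.2.1, x.2.2.1, x.2.2.2.1, x.2.2.2.2⟩
  left_inv _ := rfl
  right_inv _ := rfl

set_option synthInstance.maxSize 2048 in
lemma card_hub : Fintype.card (Hub k T) =
    24 * (2 ^ (T + 1) ^ (k + 1) * (1 + (k + 1) * (T + 1) ^ (k + 1))) := by
  rw [Fintype.card_congr hubEquiv]
  simp
  ring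

lemma sq_le_two_pow (X : ℕ) : X ^ 2 ≤ 2 * 2 ^ X := by
  induction X with
  | zero => simp
  | succ X ih =>
    have := @Nat.lt_two_pow_self X
    rw [pow_succ 2]
    nlinarith

def MM (k : ℕ) : ℕ := Fintype.card (Color k) + 5

noncomputable def GG (k : ℕ) : EOGraph (GV k (2 * MM k)) := pat k (2 * MM k)

set_option synthInstance.maxSize 2048 in
theorem upper (k : ℕ) : ∃ K : ℕ, ∀ T : ℕ, ∃ n : ℕ, 2 ^ (T + 1) ^ (k + 1) ≤ n ∧
    ∃ H : EOGraph (Fin n), IsSatHost .e (GG k) H ∧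
      H.graph.edgeSet.ncard ≤ K * (T + 1) ^ k * n := by
  set S := Fintype.card (Spec k (2 * MM k)) with hS
  refine ⟨6 * (k + 2) + S + 2 * (24 * (k + 2) + S) ^ 2, fun T => ?_⟩
  obtain ⟨H, hH, hA⟩ := greedy (G := GG k) (host k T (2 * MM k)) _ host_sub
    (host_free (by unfold MM; omega) (by unfold MM; omega)) host_sat
  set n := Fintype.card (HV k T (2 * MM k)) with hn
  set X := (T + 1) ^ (k + 1) with hX
  set Y := (T + 1) ^ k with hY
  set m := 2 ^ X with hm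
  have hTy : Fintype.card (Fin 3 → Code k T) = m ^ 3 := by simp [hm, hX]
  have hn3 : m ^ 3 ≤ n := by
    rw [← hTy]
    exact Fintype.card_le_of_injective (fun u => HV.nv (.ty u)) (fun a b h => by simpa using h)
  have hm1 : 1 ≤ m := Nat.one_le_two_pow
  have hX1 : 1 ≤ X := Nat.one_le_pow _ _ (by omega)
  have hY1 : 1 ≤ Y := Nat.one_le_pow _ _ (by omega)
  refine ⟨n, le_trans (Nat.le_self_pow (by norm_num) m) hn3,
    H.pull (Fintype.equivFin _).symm, pull_host _ hH, ?_⟩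
  rw [pull_ncard]
  have h1 := Set.ncard_le_ncard hA
  have h2 := Set.ncard_image_le (f := cover (k := k) (T := T) (N := 2 * MM k)) (s := Set.univ)
  rw [Set.image_univ, Set.ncard_univ, Nat.card_eq_fintype_card, Fintype.card_sum,
    Fintype.card_prod, Fintype.card_prod, hTy, Fintype.card_sum, Fintype.card_sum, card_hub,
    ← hS, ← hX, ← hm] at h2
  have h3 : Fintype.card (Bool × Fin 3 × Option (Fin (k + 1) × (Fin k → Fin (T + 1)))) =
      6 * ((k + 1) * Y + 1) := by simp [hY]; ring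
  rw [h3] at h2
  have h4 : 24 * (m * (1 + (k + 1) * X)) + S ≤ (24 * (k + 2) + S) * (m * X) := by
    have : 1 ≤ m * X := Nat.one_le_iff_ne_zero.mpr (by positivity)
    have : m ≤ m * X := Nat.le_mul_of_pos_right _ hX1
    nlinarith
  have h5 : (m * X) ^ 2 ≤ 2 * m ^ 3 := by
    have := sq_le_two_pow X
    calc (m * X) ^ 2 = m ^ 2 * X ^ 2 := by ring
      _ ≤ m ^ 2 * (2 * m) := Nat.mul_le_mul_left _ this
      _ = _ := by ring
  have h6 : 6 * ((k + 1) * Y + 1) + S ≤ (6 * (k + 2) + S) * Y := by nlinarith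
  calc H.graph.edgeSet.ncard ≤ _ := h1.trans h2
    _ ≤ m ^ 3 * ((6 * (k + 2) + S) * Y) +
        ((24 * (k + 2) + S) * (m * X)) * ((24 * (k + 2) + S) * (m * X)) := by gcongr
    _ = m ^ 3 * ((6 * (k + 2) + S) * Y) + (24 * (k + 2) + S) ^ 2 * (m * X) ^ 2 := by ring
    _ ≤ n * ((6 * (k + 2) + S) * Y) + (24 * (k + 2) + S) ^ 2 * (2 * (Y * n)) := by
        gcongr
        exact h5.trans (Nat.mul_le_mul_left _ (hn3.trans (Nat.le_mul_of_pos_left _ hY1)))
    _ = _ := by ring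

lemma exists_host (k n : ℕ) : ∃ H : EOGraph (Fin n), IsSatHost .e (GG k) H := by
  obtain ⟨H, hH, -⟩ := greedy (G := GG k) (V := Fin n) ⟨⊥, fun _ => 0, by simp⟩ Set.univ
    (Set.subset_univ _) (by
      rintro ⟨φ, -, h, -⟩
      exact h _ _ (pat_adjE (.root true))) (fun u v _ h => absurd (Set.mem_univ _) h)
  exact ⟨H, hH⟩

theorem lower {k T n : ℕ} (hk : 1 ≤ k) (hT : 1 ≤ T) (H : EOGraph (Fin n))
    (hH : IsSemisatHost .s (GG k) H)
    (hn : 2 * (T ^ k + 1) ^ (k * T ^ (k + 1) + 4 * T ^ k + 1) < n) :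
    T ^ k * n < 4 * H.graph.edgeSet.ncard := by
  by_contra hcon
  have := lower_bound H.graph H.label hk hT
    (compat_of_semisat (pat_hard (by unfold MM; omega)) hH) (by simpa using hcon)
  simp at this
  omega

end Pool.Agent.P.MP_775916_co
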